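import Pool.Agent.H122R3.HX.Pieces

/-!
Counting words.
-/

set_option autoImplicit false

namespace Pool.Agent.H122R3.HX

open Finset

theorem fin_fs (P : W → Prop) (n : ℕ) : {w : W | P w ∧ w.length = n}.Finite :=
  Set.Finite.subset (List.finite_length_eq (Fin 3) n) (fun _ hw => hw.2)

/-- the words of length `n` with a property -/
noncomputable def fs (P : W → Prop) (n : ℕ) : Finset W := (fin_fs P n).toFinset

theorem mem_fs {P : W → Prop} {n : ℕ} {w : W} : w ∈ fs P n ↔ P w ∧ w.length = n := by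
  unfold fs
  rw [Set.Finite.mem_toFinset]
  rfl

/-- number of self-avoiding words -/
noncomputable def c (n : ℕ) : ℕ := (fs Saw n).card

/-- number of crossing words with given horizontal displacement -/
noncomputable def ubx (m : ℕ) (x : ℤ) (S : ℕ) : ℕ := (fs (fun w => UB 0 S w ∧ X w = x) m).card

/-- number of crossing words -/
noncomputable def ub (m S : ℕ) : ℕ := (fs (UB 0 S) m).card

/-- number of pieces -/
noncomputable def g (H x T : ℤ) (n : ℕ) : ℕ := (fs (G H x T) n).card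

theorem c_le {S n : ℕ} (hS : 1 ≤ S) (hn : 8 * S ^ 2 ≤ n) :
    c n ≤ ∑ m ∈ range (n + 1), ∑ a ∈ range (n - m + 1), 3 * (c a * ub m S * c (n - m - a)) := by
  classical
  have hsub : fs Saw n ⊆ (range (n + 1)).biUnion fun m => (range (n - m + 1)).biUnion fun a =>
      (univ : Finset (Fin 3)).biUnion fun i =>
        ((fs Saw a ×ˢ fs (UB 0 S) m) ×ˢ fs Saw (n - m - a)).image
          (fun p => p.1.1 ++ (p.1.2.map (Equiv.swap i 0)) ++ p.2) := by
    intro w hw
    rw [mem_fs] at hw
    obtain ⟨u1, u2, u3, i, hw1, hw2⟩ := exists_UB hS hw.1 (by rw [hw.2]; exact hn)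
    have hl := hw.2
    rw [hw1, List.length_append, List.length_append] at hl
    simp only [mem_biUnion, mem_range, mem_univ, true_and, mem_image, mem_product, Prod.exists]
    refine ⟨u2.length, by omega, u1.length, by omega, i, u1, u2.map (Equiv.swap i 0), u3, ?_, ?_⟩
    · refine ⟨⟨?_, ?_⟩, ?_⟩
      · rw [mem_fs]
        exact ⟨hw.1.inf (by rw [hw1, List.append_assoc]; exact (List.prefix_append _ _).isInfix), rfl⟩
      · rw [mem_fs, List.length_map]
        refine ⟨?_, rfl⟩
        have := hw2.map (Equiv.swap i 0)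
        rwa [Equiv.swap_apply_left] at this
      · rw [mem_fs]
        exact ⟨hw.1.inf (by rw [hw1]; exact (List.suffix_append _ _).isInfix), by omega⟩
    · rw [hw1]
      have e : (u2.map (Equiv.swap i 0)).map (Equiv.swap i 0) = u2 := by
        rw [List.map_map]
        convert List.map_id u2
        ext j
        simp
      rw [e]
  unfold c
  refine (card_le_card hsub).trans ?_
  refine card_biUnion_le.trans (sum_le_sum fun m _ => ?_)
  refine card_biUnion_le.trans (sum_le_sum fun a _ => ?_)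
  refine card_biUnion_le.trans ?_
  calc ∑ i : Fin 3, (((fs Saw a ×ˢ fs (UB 0 S) m) ×ˢ fs Saw (n - m - a)).image
          (fun p => p.1.1 ++ (p.1.2.map (Equiv.swap i 0)) ++ p.2)).card
      ≤ ∑ _i : Fin 3, (fs Saw a).card * (fs (UB 0 S) m).card * (fs Saw (n - m - a)).card := by
        refine sum_le_sum fun i _ => card_image_le.trans ?_
        rw [card_product, card_product]
    _ = _ := by
        rw [sum_const, card_univ, Fintype.card_fin, smul_eq_mul]
        rfl

theorem UB.X_le {S : ℤ} {w : W} (h : UB 0 S w) : |X w| ≤ 2 * S := by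
  have a1 := h.2.1 w (List.infix_refl _) 1
  have a2 := h.2.1 w (List.infix_refl _) 2
  unfold X
  rw [abs_le] at *
  constructor <;> omega

theorem ub_le (m S : ℕ) : ub m S ≤ ∑ x ∈ Icc (-(2 * S : ℤ)) (2 * S), ubx m x S := by
  classical
  have hsub : fs (UB 0 S) m ⊆ (Icc (-(2 * S : ℤ)) (2 * S)).biUnion
      fun x => fs (fun w => UB 0 S w ∧ X w = x) m := by
    intro w hw
    rw [mem_fs] at hw
    rw [mem_biUnion]
    have := hw.1.X_le
    rw [abs_le] at this
    exact ⟨X w, mem_Icc.2 this, mem_fs.2 ⟨⟨hw.1, rfl⟩, hw.2⟩⟩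
  exact (card_le_card hsub).trans card_biUnion_le

theorem g_mul (H x T H' x' T' : ℤ) (n n' : ℕ) :
    g H x T n * g H' x' T' n' ≤ g (H + H') (x + x') (max T (|x| + T')) (n + n') := by
  classical
  unfold g
  rw [← card_product]
  apply card_le_card_of_injOn (fun p => p.1 ++ p.2)
  · rintro ⟨a, b⟩ hp
    rw [coe_product, Set.mem_prod, mem_coe, mem_coe, mem_fs, mem_fs] at hp
    rw [mem_coe, mem_fs]
    refine ⟨hp.1.1.append hp.2.1, ?_⟩
    rw [List.length_append, hp.1.2, hp.2.2]
  · rintro ⟨a, b⟩ hp ⟨a', b'⟩ hp' h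
    rw [coe_product, Set.mem_prod, mem_coe, mem_coe, mem_fs, mem_fs] at hp hp'
    have := List.append_inj h (by rw [hp.1.2, hp'.1.2])
    exact Prod.ext this.1 this.2

theorem g_mono {H x T T' : ℤ} (n : ℕ) (h : T ≤ T') : g H x T n ≤ g H x T' n := by
  apply card_le_card
  intro w hw
  rw [mem_fs] at *
  exact ⟨hw.1.mono h, hw.2⟩

theorem g_pow {H T : ℤ} (hT : 0 ≤ T) (n k : ℕ) :
    g H 0 T n ^ k ≤ g (k * H) 0 T (k * n) := by
  induction k with
  | zero =>
    simp only [pow_zero, Nat.cast_zero, zero_mul]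
    apply card_pos.2
    exact ⟨[], mem_fs.2 ⟨G_nil.mono hT, rfl⟩⟩
  | succ k ih =>
    calc g H 0 T n ^ (k + 1) = g H 0 T n ^ k * g H 0 T n := pow_succ _ _
      _ ≤ g (k * H) 0 T (k * n) * g H 0 T n := Nat.mul_le_mul_right _ ih
      _ ≤ _ := by
        have := g_mul (k * H) 0 T H 0 T (k * n) n
        simp only [add_zero, abs_zero, zero_add, max_self] at this
        convert this using 2
        · push_cast; ring
        · ring

theorem one_le_g (r : ℕ) {T : ℤ} (hT : 1 ≤ T) : 1 ≤ g (2 * r) 0 T (4 * r) := by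
  have h1 : 1 ≤ g 2 0 T 4 := by
    apply card_pos.2
    exact ⟨[0, 1, 0, 2], mem_fs.2 ⟨G_elem.mono hT, rfl⟩⟩
  have h2 := g_pow (H := 2) (T := T) (by omega) 4 r
  have h3 : 1 ≤ g 2 0 T 4 ^ r := Nat.one_le_pow _ _ h1
  rw [mul_comm (r : ℤ) 2, mul_comm r 4] at h2
  exact h3.trans h2

theorem X1 : X [1] = 1 := by decide
theorem X2 : X [2] = -1 := by decide

theorem ubx_le_g1 {S : ℕ} (hS : 1 ≤ S) (m : ℕ) (x : ℤ) :
    ubx m x S ≤ g S (x - 1) (2 * S + 1) (m + 1) := by
  apply card_le_card_of_injOn (fun w => w ++ [1])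
  · intro w hw
    rw [mem_coe, mem_fs] at hw
    rw [mem_coe, mem_fs]
    have := hw.1.1.piece (by exact_mod_cast hS) (l := 1) (by decide)
    rw [hw.1.2, X1] at this
    exact ⟨this, by simp [hw.2]⟩
  · intro a _ b _ h
    exact List.append_cancel_right h

theorem ubx_le_g2 {S : ℕ} (hS : 1 ≤ S) (m : ℕ) (x : ℤ) :
    ubx m x S ≤ g S (-x + 1) (2 * S + 1) (m + 1) := by
  apply card_le_card_of_injOn (fun w => w.map (Equiv.swap 1 2) ++ [2])
  · intro w hw
    rw [mem_coe, mem_fs] at hw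
    rw [mem_coe, mem_fs]
    have h1 : UB 0 S (w.map (Equiv.swap 1 2)) := by
      have := hw.1.1.map (Equiv.swap 1 2)
      rwa [Equiv.swap_apply_of_ne_of_ne (by decide) (by decide)] at this
    have h2 : X (w.map (Equiv.swap 1 2)) = -x := by
      rw [← hw.1.2]
      unfold X
      rw [pos_map', pos_map', Equiv.symm_swap, Equiv.swap_apply_left, Equiv.swap_apply_right]
      ring
    have := h1.piece (by exact_mod_cast hS) (l := 2) (by decide)
    rw [h2, X2, sub_neg_eq_add] at this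
    exact ⟨this, by simp [hw.2]⟩
  · intro a _ b _ h
    have h' := List.append_cancel_right h
    exact (List.map_injective_iff.2 (Equiv.injective _)) h'

theorem ubx_sq_le {S : ℕ} (hS : 1 ≤ S) (m : ℕ) {x : ℤ} (hx : |x| ≤ 2 * S) :
    ubx m x S ^ 2 ≤ g (2 * S) 0 (4 * S + 2) (2 * m + 2) := by
  have h1 := ubx_le_g1 hS m x
  have h2 := ubx_le_g2 hS m x
  have h3 := g_mul S (x - 1) (2 * S + 1) S (-x + 1) (2 * S + 1) (m + 1) (m + 1)
  calc ubx m x S ^ 2 = ubx m x S * ubx m x S := sq _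
    _ ≤ g S (x - 1) (2 * S + 1) (m + 1) * g S (-x + 1) (2 * S + 1) (m + 1) :=
        Nat.mul_le_mul h1 h2
    _ ≤ _ := h3
    _ = g (2 * S) 0 (max (2 * S + 1) (|x - 1| + (2 * S + 1))) (2 * m + 2) := by
        congr 1
        · ring
        · ring
        · ring
    _ ≤ _ := by
        apply g_mono
        rw [abs_le] at hx
        apply max_le
        · omega
        · have : |x - 1| ≤ 2 * S + 1 := by
            rw [abs_le]
            constructor <;> omega
          omega

theorem ubx_pow_le {S : ℕ} (hS : 1 ≤ S) (m : ℕ) {x : ℤ} (hx : |x| ≤ 2 * S) (k r : ℕ) :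
    ubx m x S ^ (2 * k) ≤ g (2 * (k * S + r)) 0 (4 * S + 2) (k * (2 * m + 2) + 4 * r) := by
  have h1 := ubx_sq_le hS m hx
  have h2 := g_pow (H := 2 * S) (T := 4 * S + 2) (by omega) (2 * m + 2) k
  have h3 := one_le_g r (T := 4 * S + 2) (by omega)
  have h4 := g_mul (k * (2 * S)) 0 (4 * S + 2) (2 * r) 0 (4 * S + 2) (k * (2 * m + 2)) (4 * r)
  simp only [add_zero, abs_zero, zero_add, max_self] at h4
  calc ubx m x S ^ (2 * k) = (ubx m x S ^ 2) ^ k := by rw [pow_mul]
    _ ≤ g (2 * S) 0 (4 * S + 2) (2 * m + 2) ^ k := Nat.pow_le_pow_left h1 k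
    _ ≤ g (k * (2 * S)) 0 (4 * S + 2) (k * (2 * m + 2)) * 1 := by rw [mul_one]; exact h2
    _ ≤ _ := Nat.mul_le_mul_left _ h3
    _ ≤ _ := h4
    _ = _ := by congr 1; ring

end Pool.Agent.H122R3.HX
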