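import Pool.Agent.H122R3.HX.Count

/-!
The lower bound for the weight of the pieces.
-/

set_option autoImplicit false

namespace Pool.Agent.H122R3.HX

open Finset Real

/-- bounds for the number of self-avoiding words -/
structure Bd (μ K : ℝ) : Prop where
  one : 1 ≤ μ
  Kn : 0 ≤ K
  low : ∀ n : ℕ, 2 ≤ n → μ ^ n ≤ c n
  up : ∀ n : ℕ, 2 ≤ n → (c n : ℝ) ≤ μ ^ n * exp (K * log n ^ 5)

theorem c_zero_le : c 0 ≤ 1 := by
  classical
  have : fs Saw 0 ⊆ {[]} := by
    intro w hw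
    rw [mem_fs] at hw
    rw [mem_singleton]
    exact List.length_eq_zero_iff.1 hw.2
  exact (card_le_card this).trans (by simp)

theorem c_one_le : c 1 ≤ 3 := by
  classical
  have : fs Saw 1 ⊆ (univ : Finset (Fin 3)).image (fun i => [i]) := by
    intro w hw
    rw [mem_fs] at hw
    obtain ⟨a, ha⟩ := List.length_eq_one_iff.1 hw.2
    rw [mem_image]
    exact ⟨a, mem_univ _, ha.symm⟩
  exact (card_le_card this).trans (card_image_le.trans (by simp))

theorem Bd.c_le3 {μ K : ℝ} (h : Bd μ K) {a n : ℕ} (ha : a ≤ n) (hn : 2 ≤ n) :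
    (c a : ℝ) ≤ 3 * μ ^ a * exp (K * log n ^ 5) := by
  have hE : 1 ≤ exp (K * log n ^ 5) := by
    apply one_le_exp
    have : 0 ≤ log n := log_natCast_nonneg n
    have := h.Kn
    positivity
  have hμ := h.one
  rcases Nat.lt_or_ge a 2 with h2 | h2
  · have h3 : (c a : ℝ) ≤ 3 := by
      have : c a ≤ 3 := by
        interval_cases a
        · exact c_zero_le.trans (by norm_num)
        · exact c_one_le
      exact_mod_cast this
    have h4 : (1 : ℝ) ≤ μ ^ a := one_le_pow₀ hμ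
    nlinarith [mul_nonneg (sub_nonneg.2 h4) (sub_nonneg.2 hE)]
  · have h3 := h.up a h2
    have h4 : exp (K * log a ^ 5) ≤ exp (K * log n ^ 5) := by
      apply exp_le_exp.2
      apply mul_le_mul_of_nonneg_left _ h.Kn
      apply pow_le_pow_left₀ (log_natCast_nonneg a)
      exact log_le_log (by exact_mod_cast (by omega : 0 < a)) (by exact_mod_cast ha)
    have h5 : 0 < μ ^ a := pow_pos (by linarith) _
    calc (c a : ℝ) ≤ μ ^ a * exp (K * log a ^ 5) := h3
      _ ≤ μ ^ a * exp (K * log n ^ 5) := by gcongr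
      _ ≤ _ := by nlinarith [mul_pos h5 (exp_pos (K * log n ^ 5))]

/-- constant -/
noncomputable def K2 (K : ℝ) : ℝ := 6250 * K + 21 / log 2 ^ 4

theorem K2_nonneg {K : ℝ} (hK : 0 ≤ K) : 0 ≤ K2 K := by
  unfold K2
  have : 0 < log 2 := log_pos (by norm_num)
  positivity

theorem exists_ubx {μ K : ℝ} (h : Bd μ K) {S : ℕ} (hS : 1 ≤ S) :
    ∃ (m : ℕ) (x : ℤ), |x| ≤ 2 * S ∧
      exp (-(K2 K * log (S + 1) ^ 5)) ≤ (ubx m x S : ℝ) / μ ^ m := by
  by_contra hcon
  push Not at hcon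
  have hμ0 : 0 < μ := by linarith [h.one]
  obtain ⟨n, hn⟩ : ∃ n, n = 8 * S ^ 2 := ⟨_, rfl⟩
  have hn2 : 2 ≤ n := by nlinarith
  obtain ⟨E, hE⟩ : ∃ E, E = exp (K * log n ^ 5) := ⟨_, rfl⟩
  have hE0 : 0 < E := by rw [hE]; exact exp_pos _
  obtain ⟨θ, hθ⟩ : ∃ θ, θ = exp (-(K2 K * log (S + 1) ^ 5)) := ⟨_, rfl⟩
  have hθ0 : 0 < θ := by rw [hθ]; exact exp_pos _
  rw [← hθ] at hcon
  -- the arithmetic
  have hSr : (1 : ℝ) ≤ S := by exact_mod_cast hS
  have hlog2 : 0 < log 2 := log_pos (by norm_num)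
  obtain ⟨l, hl⟩ : ∃ l, l = log ((S : ℝ) + 1) := ⟨_, rfl⟩
  have hl2 : log 2 ≤ l := by
    rw [hl]
    exact log_le_log (by norm_num) (by linarith)
  have hl0 : 0 < l := by linarith
  have hB : 54 * ((n : ℝ) + 1) ^ 2 * (4 * S + 1) * E ^ 2 * θ ≤ 1 := by
    have a1 : (54 : ℝ) ≤ ((S : ℝ) + 1) ^ 6 := by
      calc (54 : ℝ) ≤ 2 ^ 6 := by norm_num
        _ ≤ _ := pow_le_pow_left₀ (by norm_num) (by linarith) 6
    have a3 : (8 : ℝ) ≤ ((S : ℝ) + 1) ^ 3 := by
      calc (8 : ℝ) = 2 ^ 3 := by norm_num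
        _ ≤ _ := pow_le_pow_left₀ (by norm_num) (by linarith) 3
    have a2 : ((n : ℝ) + 1) ≤ ((S : ℝ) + 1) ^ 5 := by
      have : (n : ℝ) = 8 * (S : ℝ) ^ 2 := by rw [hn]; push_cast; ring
      rw [this]
      calc 8 * (S : ℝ) ^ 2 + 1 ≤ 8 * ((S : ℝ) + 1) ^ 2 := by nlinarith
        _ ≤ ((S : ℝ) + 1) ^ 3 * ((S : ℝ) + 1) ^ 2 := by gcongr
        _ = _ := by ring
    have a4 : (4 * (S : ℝ) + 1) ≤ ((S : ℝ) + 1) ^ 5 := by
      calc (4 * (S : ℝ) + 1) ≤ 8 * ((S : ℝ) + 1) ^ 2 := by nlinarith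
        _ ≤ ((S : ℝ) + 1) ^ 3 * ((S : ℝ) + 1) ^ 2 := by gcongr
        _ = _ := by ring
    have b1 : 54 * ((n : ℝ) + 1) ^ 2 * (4 * S + 1) ≤ ((S : ℝ) + 1) ^ 21 := by
      calc 54 * ((n : ℝ) + 1) ^ 2 * (4 * S + 1) ≤
          ((S : ℝ) + 1) ^ 6 * (((S : ℝ) + 1) ^ 5) ^ 2 * ((S : ℝ) + 1) ^ 5 := by gcongr
        _ = _ := by ring
    have b2 : ((S : ℝ) + 1) ^ 21 = exp (21 * l) := by
      rw [hl, show (21 : ℝ) * log ((S : ℝ) + 1) = ((21 : ℕ) : ℝ) * log ((S : ℝ) + 1) by norm_num,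
        exp_nat_mul, exp_log (by linarith)]
    have b3 : log n ≤ 5 * l := by
      have : log ((n : ℝ)) ≤ log (((S : ℝ) + 1) ^ 5) := by
        apply log_le_log
        · exact_mod_cast (by omega : 0 < n)
        · linarith
      rw [log_pow] at this
      rw [hl]
      exact_mod_cast this
    have b4 : E ^ 2 ≤ exp (6250 * K * l ^ 5) := by
      rw [hE, ← exp_nat_mul]
      apply exp_le_exp.2
      have : log (n : ℝ) ^ 5 ≤ (5 * l) ^ 5 :=
        pow_le_pow_left₀ (log_natCast_nonneg n) b3 5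
      have hK := h.Kn
      push_cast
      nlinarith [mul_le_mul_of_nonneg_left this hK]
    have b5 : 21 * l ≤ 21 / log 2 ^ 4 * l ^ 5 := by
      have : log 2 ^ 4 ≤ l ^ 4 := pow_le_pow_left₀ hlog2.le hl2 4
      rw [div_mul_eq_mul_div, le_div_iff₀ (by positivity)]
      have h6 : 21 * l * log 2 ^ 4 ≤ 21 * l * l ^ 4 := by gcongr
      calc 21 * l * log 2 ^ 4 ≤ 21 * l * l ^ 4 := h6
        _ = _ := by ring
    calc 54 * ((n : ℝ) + 1) ^ 2 * (4 * S + 1) * E ^ 2 * θ
        ≤ exp (21 * l) * exp (6250 * K * l ^ 5) * θ := by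
          rw [b2] at b1
          gcongr
      _ = exp (21 * l + 6250 * K * l ^ 5 + -(K2 K * l ^ 5)) := by
          rw [hθ, ← hl, ← exp_add, ← exp_add]
      _ ≤ exp 0 := by
          apply exp_le_exp.2
          unfold K2
          linarith
      _ = 1 := exp_zero
  -- the counting
  have h1 := c_le hS (le_of_eq hn.symm)
  have h2 : (c n : ℝ) ≤ ∑ m ∈ range (n + 1), ∑ a ∈ range (n - m + 1),
      27 * E ^ 2 * ((4 * S + 1) * θ) * μ ^ n := by
    calc (c n : ℝ) ≤ ((∑ m ∈ range (n + 1), ∑ a ∈ range (n - m + 1),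
          3 * (c a * ub m S * c (n - m - a)) : ℕ) : ℝ) := by exact_mod_cast h1
      _ = ∑ m ∈ range (n + 1), ∑ a ∈ range (n - m + 1),
          3 * ((c a : ℝ) * ub m S * c (n - m - a)) := by push_cast; rfl
      _ ≤ _ := by
          refine sum_le_sum fun m hm => sum_le_sum fun a ha => ?_
          rw [mem_range] at hm ha
          have e1 := h.c_le3 (a := a) (n := n) (by omega) hn2
          have e2 := h.c_le3 (a := n - m - a) (n := n) (by omega) hn2
          rw [← hE] at e1 e2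
          have e3 : (ub m S : ℝ) ≤ (4 * S + 1) * θ * μ ^ m := by
            calc (ub m S : ℝ) ≤ ((∑ x ∈ Icc (-(2 * S : ℤ)) (2 * S), ubx m x S : ℕ) : ℝ) := by
                  exact_mod_cast ub_le m S
              _ = ∑ x ∈ Icc (-(2 * S : ℤ)) (2 * S), (ubx m x S : ℝ) := by push_cast; rfl
              _ ≤ ∑ x ∈ Icc (-(2 * S : ℤ)) (2 * S), θ * μ ^ m := by
                  refine sum_le_sum fun x hx => ?_
                  rw [mem_Icc] at hx
                  have := hcon m x (by rw [abs_le]; exact hx)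
                  rw [div_lt_iff₀ (pow_pos hμ0 _)] at this
                  exact this.le
              _ = _ := by
                  rw [sum_const, Int.card_Icc, nsmul_eq_mul]
                  have : ((2 * (S : ℤ) + 1 - -(2 * (S : ℤ))).toNat) = 4 * S + 1 := by omega
                  rw [this]
                  push_cast
                  ring
          have e4 : μ ^ a * μ ^ m * μ ^ (n - m - a) = μ ^ n := by
            rw [← pow_add, ← pow_add]
            congr 1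
            omega
          calc 3 * ((c a : ℝ) * ub m S * c (n - m - a))
              ≤ 3 * ((3 * μ ^ a * E) * ((4 * S + 1) * θ * μ ^ m) *
                (3 * μ ^ (n - m - a) * E)) := by gcongr
            _ = 27 * E ^ 2 * ((4 * S + 1) * θ) * (μ ^ a * μ ^ m * μ ^ (n - m - a)) := by ring
            _ = _ := by rw [e4]
  have h3 : (c n : ℝ) ≤ ((n : ℝ) + 1) ^ 2 * (27 * E ^ 2 * ((4 * S + 1) * θ) * μ ^ n) := by
    refine h2.trans ?_
    have hnn : 0 ≤ 27 * E ^ 2 * ((4 * S + 1) * θ) * μ ^ n := by positivity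
    calc ∑ m ∈ range (n + 1), ∑ a ∈ range (n - m + 1), 27 * E ^ 2 * ((4 * S + 1) * θ) * μ ^ n
        ≤ ∑ m ∈ range (n + 1), ((n : ℝ) + 1) * (27 * E ^ 2 * ((4 * S + 1) * θ) * μ ^ n) := by
          refine sum_le_sum fun m _ => ?_
          rw [sum_const, card_range, nsmul_eq_mul]
          apply mul_le_mul_of_nonneg_right _ hnn
          exact_mod_cast (by omega : n - m + 1 ≤ n + 1)
      _ = _ := by
          rw [sum_const, card_range, nsmul_eq_mul]
          push_cast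
          ring
  have h4 := h.low n hn2
  have h5 : 0 < μ ^ n := pow_pos hμ0 _
  have h6 : μ ^ n ≤ (1 / 2) * μ ^ n := by
    calc μ ^ n ≤ c n := h4
      _ ≤ _ := h3
      _ = (54 * ((n : ℝ) + 1) ^ 2 * (4 * S + 1) * E ^ 2 * θ) * ((1 / 2) * μ ^ n) := by ring
      _ ≤ 1 * ((1 / 2) * μ ^ n) := by gcongr
      _ = _ := one_mul _
  linarith

/-- **Lower bound for the weight of the paths joining the midpoints of the short sides of a
rectangle.** -/
theorem main_lower {μ K : ℝ} (h : Bd μ K) {ε : ℝ} (hε : 0 < ε) : ∃ K3 : ℝ, 0 ≤ K3 ∧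
    ∀ L : ℕ, 2 ≤ L → 1 ≤ ε * L →
      ∃ n : ℕ, exp (-(K3 * log L ^ 5)) ≤ (g (2 * L) 0 ⌊ε * L⌋ n : ℝ) / μ ^ n := by
  have hμ0 : 0 < μ := by linarith [h.one]
  have hlog2 : 0 < log 2 := log_pos (by norm_num)
  have hlμ : 0 ≤ log μ := log_nonneg h.one
  obtain ⟨k, hk⟩ : ∃ k : ℕ, k = ⌈8 / ε⌉₊ := ⟨_, rfl⟩
  have hk8 : 8 / ε ≤ k := by rw [hk]; exact Nat.le_ceil _
  have hk0 : 0 < k := by
    have : (0 : ℝ) < k := lt_of_lt_of_le (by positivity) hk8
    exact_mod_cast this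
  have hkε : 8 ≤ ε * k := by
    rw [div_le_iff₀ hε] at hk8
    linarith
  have hK2 := K2_nonneg h.Kn
  refine ⟨64 * k * K2 K + 6 * k * log μ / log 2 ^ 5, by positivity, ?_⟩
  intro L hL hεL
  have hLr : (2 : ℝ) ≤ L := by exact_mod_cast hL
  obtain ⟨l, hl⟩ : ∃ l, l = log (L : ℝ) := ⟨_, rfl⟩
  have hl2 : log 2 ≤ l := by rw [hl]; exact log_le_log (by norm_num) hLr
  have hl0 : 0 < l := by linarith
  have hl5 : log 2 ^ 5 ≤ l ^ 5 := pow_le_pow_left₀ hlog2.le hl2 5
  rw [← hl]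
  have hT1 : (1 : ℤ) ≤ ⌊ε * L⌋ := by
    rw [Int.le_floor]
    exact_mod_cast hεL
  have hμk : ∀ j : ℕ, j ≤ 6 * k → exp (-(6 * k * log μ / log 2 ^ 5 * l ^ 5)) ≤ 1 / μ ^ j := by
    intro j hj
    have e1 : (1 : ℝ) / μ ^ j = exp (-(j * log μ)) := by
      rw [exp_neg, exp_nat_mul, exp_log hμ0, one_div]
    rw [e1]
    apply exp_le_exp.2
    have e2 : (j : ℝ) ≤ 6 * k := by exact_mod_cast hj
    have e3 : (j : ℝ) * log μ ≤ 6 * k * log μ := by gcongr
    have e4 : 6 * k * log μ ≤ 6 * k * log μ / log 2 ^ 5 * l ^ 5 := by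
      rw [div_mul_eq_mul_div, le_div_iff₀ (by positivity)]
      gcongr
    linarith
  have hdiv := Nat.div_add_mod L k
  have hmod := Nat.mod_lt L hk0
  obtain ⟨S, hS⟩ : ∃ S, S = L / k := ⟨_, rfl⟩
  obtain ⟨r, hr⟩ : ∃ r, r = L % k := ⟨_, rfl⟩
  rw [← hS, ← hr] at hdiv
  rw [← hr] at hmod
  rcases Nat.eq_zero_or_pos S with hS0 | hS0
  · -- small `L`
    refine ⟨4 * L, ?_⟩
    have hLr' : L < k := by
      rw [hS0] at hdiv
      omega
    have e1 := one_le_g L hT1
    have e2 := hμk (4 * L) (by omega)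
    calc exp (-((64 * k * K2 K + 6 * k * log μ / log 2 ^ 5) * l ^ 5))
        ≤ exp (-(6 * k * log μ / log 2 ^ 5 * l ^ 5)) := by
          apply exp_le_exp.2
          have : 0 ≤ 64 * k * K2 K * l ^ 5 := by positivity
          linarith
      _ ≤ 1 / μ ^ (4 * L) := e2
      _ ≤ _ := by
          apply div_le_div_of_nonneg_right _ (by positivity)
          exact_mod_cast e1
  · obtain ⟨m, x, hx, hmx⟩ := exists_ubx h hS0
    have e1 := ubx_pow_le hS0 m hx k r
    refine ⟨k * (2 * m + 2) + 4 * r, ?_⟩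
    have hT : (4 * S + 2 : ℤ) ≤ ⌊ε * L⌋ := by
      rw [Int.le_floor]
      push_cast
      have a1 : (k : ℝ) * S ≤ L := by
        have : k * S ≤ L := by omega
        exact_mod_cast this
      have a2 : (1 : ℝ) ≤ S := by exact_mod_cast hS0
      have a3 : ε * ((k : ℝ) * S) ≤ ε * L := by gcongr
      have a4 : 8 * (S : ℝ) ≤ ε * k * S := by gcongr
      nlinarith
    have e2 : ubx m x S ^ (2 * k) ≤ g (2 * L) 0 ⌊ε * L⌋ (k * (2 * m + 2) + 4 * r) := by
      refine e1.trans ((g_mono _ hT).trans (le_of_eq ?_))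
      congr 1
      have : (L : ℤ) = k * S + r := by exact_mod_cast hdiv.symm
      rw [this]
    have e3 : (ubx m x S : ℝ) ^ (2 * k) / μ ^ (k * (2 * m + 2) + 4 * r) ≤
        (g (2 * L) 0 ⌊ε * L⌋ (k * (2 * m + 2) + 4 * r) : ℝ) / μ ^ (k * (2 * m + 2) + 4 * r) := by
      apply div_le_div_of_nonneg_right _ (by positivity)
      exact_mod_cast e2
    refine le_trans ?_ e3
    have e4 : (ubx m x S : ℝ) ^ (2 * k) / μ ^ (k * (2 * m + 2) + 4 * r) =
        ((ubx m x S : ℝ) / μ ^ m) ^ (2 * k) * (1 / μ ^ (2 * k + 4 * r)) := by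
      rw [div_pow, ← pow_mul, div_mul_div_comm, mul_one, ← pow_add]
      congr 2
      ring
    rw [e4]
    have e5 := hμk (2 * k + 4 * r) (by omega)
    have e6 : log ((S : ℝ) + 1) ≤ 2 * l := by
      rw [hl]
      have : log ((S : ℝ) + 1) ≤ log ((L : ℝ) ^ 2) := by
        apply log_le_log (by positivity)
        have a1 : (S : ℝ) ≤ L := by
          have : S ≤ L := by rw [hS]; exact Nat.div_le_self _ _
          exact_mod_cast this
        nlinarith
      rw [log_pow] at this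
      exact_mod_cast this
    have e7 : K2 K * log ((S : ℝ) + 1) ^ 5 ≤ 32 * K2 K * l ^ 5 := by
      have a0 : 0 ≤ log ((S : ℝ) + 1) := log_nonneg (by
        have : (0 : ℝ) ≤ S := Nat.cast_nonneg _
        linarith)
      have : log ((S : ℝ) + 1) ^ 5 ≤ (2 * l) ^ 5 := pow_le_pow_left₀ a0 e6 5
      nlinarith [mul_le_mul_of_nonneg_left this hK2]
    have e8 : exp (-(64 * k * K2 K * l ^ 5)) ≤ ((ubx m x S : ℝ) / μ ^ m) ^ (2 * k) := by
      calc exp (-(64 * k * K2 K * l ^ 5)) = exp (-(32 * K2 K * l ^ 5)) ^ (2 * k) := by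
            rw [← exp_nat_mul]
            congr 1
            push_cast
            ring
        _ ≤ exp (-(K2 K * log ((S : ℝ) + 1) ^ 5)) ^ (2 * k) := by
            apply pow_le_pow_left₀ (exp_pos _).le
            apply exp_le_exp.2
            linarith
        _ ≤ _ := pow_le_pow_left₀ (exp_pos _).le hmx _
    calc exp (-((64 * k * K2 K + 6 * k * log μ / log 2 ^ 5) * l ^ 5))
        = exp (-(64 * k * K2 K * l ^ 5)) * exp (-(6 * k * log μ / log 2 ^ 5 * l ^ 5)) := by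
          rw [← exp_add]
          congr 1
          ring
      _ ≤ _ := by gcongr

end Pool.Agent.H122R3.HX
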