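import Pool.Agent.H122R3.HX.Count

/-!
Words and walks on the honeycomb lattice in brick-wall coordinates.
-/

set_option autoImplicit false

namespace Pool.Agent.H122R3.HX

/-- Adjacency in the honeycomb lattice (brick-wall model), as in the frozen statement S19575. -/
def Nbr (p q : ℤ × ℤ) : Prop :=
  (p.2 = q.2 ∧ (p.1 - q.1 = 1 ∨ q.1 - p.1 = 1)) ∨
    (p.1 = q.1 ∧ ((q.2 = p.2 + 1 ∧ Even (p.1 + p.2)) ∨ (p.2 = q.2 + 1 ∧ Even (q.1 + q.2))))

/-- The set of `n`-step self-avoiding walks from the origin. -/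
def walks (n : ℕ) : Set (Fin (n + 1) → ℤ × ℤ) :=
  {ω | ω 0 = (0, 0) ∧ Function.Injective ω ∧ ∀ i : Fin n, Nbr (ω i.castSucc) (ω i.succ)}

/-- the end point of a word -/
def V (w : W) : ℤ × ℤ := (X w, pos w 0)

theorem V_even (w : W) : (V w).1 + (V w).2 = ((w.length % 2 : ℕ) : ℤ) - 2 * pos w 2 := by
  have := pos_sum w
  unfold V X
  simp only
  omega

theorem X_single (l : Fin 3) : X [l] = (if 1 = l then 1 else 0) - (if 2 = l then 1 else 0) := by
  simp [X]

theorem V_next (w : W) (l : Fin 3) : V (w ++ [l]) =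
    (X w + (-1) ^ w.length * ((if 1 = l then 1 else 0) - (if 2 = l then 1 else 0)),
      pos w 0 + (-1) ^ w.length * (if 0 = l then 1 else 0)) := by
  unfold V
  rw [X_append, X_single, pos_append, pos_cons, pos_nil, sub_zero]

theorem V_next_inj {w : W} {l l' : Fin 3} (h : V (w ++ [l]) = V (w ++ [l'])) : l = l' := by
  rw [V_next, V_next, Prod.mk.injEq] at h
  obtain ⟨h1, h2⟩ := h
  rcases sgn_cases w.length with ⟨e, -⟩ | ⟨e, -⟩ <;> rw [e] at h1 h2 <;>
    fin_cases l <;> fin_cases l' <;> simp at h1 h2 ⊢ <;> omega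

theorem nbr_next (w : W) (l : Fin 3) : Nbr (V w) (V (w ++ [l])) := by
  have hV := V_even w
  rw [V_next]
  unfold Nbr
  rcases sgn_cases w.length with ⟨e, h⟩ | ⟨e, h⟩ <;> rw [e] <;> rw [h] at hV
  · fin_cases l
    · right
      refine ⟨by simp [V], Or.inl ⟨by simp [V], ?_⟩⟩
      rw [hV, Int.even_iff]
      omega
    · left
      simp [V]
    · left
      simp [V]
  · fin_cases l
    · right
      refine ⟨by simp [V], Or.inr ⟨by simp [V], ?_⟩⟩
      have : (V w).1 + (V w).2 = X w + pos w 0 := rfl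
      rw [this] at hV
      simp only [Fin.zero_eta, Fin.isValue, one_ne_zero, ↓reduceIte, sub_self, mul_zero, add_zero,
        mul_one]
      rw [Int.even_iff]
      have h2 : (2 : Fin 3) ≠ 0 := by decide
      simp only [Fin.isValue, h2, ↓reduceIte, sub_self, mul_zero, add_zero]
      omega
    · left
      simp [V]
    · left
      simp [V]

theorem next_of_nbr {w : W} {q : ℤ × ℤ} (h : Nbr (V w) q) : ∃ l, V (w ++ [l]) = q := by
  have hV := V_even w
  obtain ⟨x, y⟩ := q
  have hV' : (V w).1 + (V w).2 = X w + pos w 0 := rfl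
  rw [hV'] at hV
  unfold Nbr at h
  simp only [V] at h
  rcases sgn_cases w.length with ⟨e, h'⟩ | ⟨e, h'⟩ <;> rw [h'] at hV
  · rcases h with ⟨h1, h2 | h2⟩ | ⟨h1, ⟨h2, h3⟩ | ⟨h2, h3⟩⟩
    · refine ⟨2, ?_⟩
      rw [V_next, e]
      ext <;> simp <;> omega
    · refine ⟨1, ?_⟩
      rw [V_next, e]
      ext <;> simp <;> omega
    · refine ⟨0, ?_⟩
      rw [V_next, e]
      ext <;> simp <;> omega
    · rw [Int.even_iff] at h3
      omega
  · rcases h with ⟨h1, h2 | h2⟩ | ⟨h1, ⟨h2, h3⟩ | ⟨h2, h3⟩⟩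
    · refine ⟨1, ?_⟩
      rw [V_next, e]
      ext <;> simp <;> omega
    · refine ⟨2, ?_⟩
      rw [V_next, e]
      ext <;> simp <;> omega
    · rw [Int.even_iff] at h3
      omega
    · refine ⟨0, ?_⟩
      rw [V_next, e]
      ext <;> simp <;> omega

theorem pos_eq_of_V {a b : W} (h : V a = V b) : ∀ i, pos a i = pos b i := by
  have h1 := V_even a
  have h2 := V_even b
  have s1 := pos_sum a
  have s2 := pos_sum b
  rw [h] at h1
  unfold V X at h
  rw [Prod.mk.injEq] at h
  obtain ⟨h3, h4⟩ := h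
  have h5 : ((a.length % 2 : ℕ) : ℤ) = ((b.length % 2 : ℕ) : ℤ) := by
    omega
  intro i
  fin_cases i
  · exact h4
  · simp only [Fin.mk_one, Fin.isValue]
    omega
  · simp only [Fin.reduceFinMk, Fin.isValue]
    omega

/-- the walk of a word -/
def fw (n : ℕ) (w : W) : Fin (n + 1) → ℤ × ℤ := fun k => V (w.take k)

theorem fw_inj {n : ℕ} {w w' : W} (hw : w.length = n) (hw' : w'.length = n)
    (h : fw n w = fw n w') : w = w' := by
  have key : ∀ k, k ≤ n → w.take k = w'.take k := by
    intro k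
    induction k with
    | zero => intro _; simp
    | succ k ih =>
      intro hk
      have h1 := ih (by omega)
      have h2 := congrFun h ⟨k + 1, by omega⟩
      unfold fw at h2
      simp only at h2
      have e1 : w.take (k + 1) = w.take k ++ [w[k]'(by omega)] := by
        rw [List.take_add_one, List.getElem?_eq_getElem (by omega)]; rfl
      have e2 : w'.take (k + 1) = w'.take k ++ [w'[k]'(by omega)] := by
        rw [List.take_add_one, List.getElem?_eq_getElem (by omega)]; rfl
      rw [e1, e2, ← h1] at h2 ⊢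
      rw [V_next_inj h2]
  have := key n le_rfl
  rwa [List.take_of_length_le hw.le, List.take_of_length_le hw'.le] at this

theorem fw_nbr {n : ℕ} {w : W} (hw : w.length = n) (i : Fin n) :
    Nbr (fw n w i.castSucc) (fw n w i.succ) := by
  unfold fw
  have hi := i.2
  have e1 : w.take (i + 1) = w.take i ++ [w[(i : ℕ)]'(by omega)] := by
    rw [List.take_add_one, List.getElem?_eq_getElem (by omega)]; rfl
  simp only [Fin.val_castSucc, Fin.val_succ]
  rw [e1]
  exact nbr_next _ _

theorem fw_injective {n : ℕ} {w : W} (hs : Saw w) (hw : w.length = n) :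
    Function.Injective (fw n w) := by
  intro a b hab
  unfold fw at hab
  have h := pos_eq_of_V hab
  by_contra hne
  have hne' : (a : ℕ) ≠ b := fun h => hne (Fin.ext h)
  rcases Nat.lt_or_gt_of_ne hne' with h1 | h1
  · obtain ⟨i, hi⟩ := hs.take_ne h1 (by omega)
    exact hi (h i)
  · obtain ⟨i, hi⟩ := hs.take_ne h1 (by omega)
    exact hi (h i).symm

theorem fw_mem {n : ℕ} {w : W} (hs : Saw w) (hw : w.length = n) : fw n w ∈ walks n :=
  ⟨by simp [fw, V], fw_injective hs hw, fw_nbr hw⟩

theorem exists_word {n : ℕ} {γ : Fin (n + 1) → ℤ × ℤ} (hγ : γ ∈ walks n) :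
    ∀ k (hk : k ≤ n), ∃ w : W, w.length = k ∧
      ∀ j (hj : j ≤ k), V (w.take j) = γ ⟨j, by omega⟩ := by
  obtain ⟨h0, -, hn⟩ := hγ
  intro k
  induction k with
  | zero =>
    intro _
    refine ⟨[], rfl, ?_⟩
    intro j hj
    have : j = 0 := by omega
    subst this
    simp only [List.take_nil, Fin.zero_eta]
    rw [h0]
    simp [V]
  | succ k ih =>
    intro hk
    obtain ⟨w, hw, hw2⟩ := ih (by omega)
    have h1 := hw2 k le_rfl
    rw [List.take_of_length_le hw.le] at h1
    have h2 := hn ⟨k, by omega⟩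
    simp only [Fin.castSucc_mk, Fin.succ_mk] at h2
    rw [← h1] at h2
    obtain ⟨l, hl⟩ := next_of_nbr h2
    refine ⟨w ++ [l], by simp [hw], ?_⟩
    intro j hj
    rcases Nat.lt_or_ge j (k + 1) with h3 | h3
    · rw [List.take_append_of_le_length (by omega)]
      exact hw2 j (by omega)
    · have : j = k + 1 := by omega
      subst this
      rw [List.take_of_length_le (by simp [hw])]
      exact hl

theorem walks_eq (n : ℕ) : walks n = fw n '' (fs Saw n : Set W) := by
  ext γ
  constructor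
  · intro hγ
    obtain ⟨w, hw, hw2⟩ := exists_word hγ n le_rfl
    refine ⟨w, ?_, ?_⟩
    · rw [Finset.mem_coe, mem_fs]
      refine ⟨?_, hw⟩
      intro v hv h0
      by_contra hcon
      push Not at hcon
      obtain ⟨s, t, hst⟩ := hv
      have hlv := List.length_pos_of_ne_nil h0
      have hlen : s.length + v.length + t.length = n := by
        rw [← hw, ← hst]
        simp
        ring
      have e1 : w.take s.length = s := by
        rw [← hst, List.append_assoc, List.take_left']
        rfl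
      have e2 : w.take (s.length + v.length) = s ++ v := by
        rw [← hst, List.take_left']
        simp
      have h1 := hw2 s.length (by omega)
      have h2 := hw2 (s.length + v.length) (by omega)
      rw [e1] at h1
      rw [e2] at h2
      have h3 : V (s ++ v) = V s := by
        unfold V X
        simp only [pos_append, hcon, mul_zero, add_zero]
      rw [h3, h1] at h2
      have := hγ.2.1 h2
      simp only [Fin.mk.injEq] at this
      omega
    · funext k
      exact hw2 k (by omega)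
  · rintro ⟨w, hw, rfl⟩
    rw [Finset.mem_coe, mem_fs] at hw
    exact fw_mem hw.1 hw.2

theorem ncard_walks (n : ℕ) : (walks n).ncard = c n := by
  have h1 : Set.InjOn (fw n) (fs Saw n : Set W) := by
    intro w hw w' hw' h
    rw [Finset.mem_coe, mem_fs] at hw hw'
    exact fw_inj hw.2 hw'.2 h
  rw [walks_eq, h1.ncard_image, Set.ncard_coe_finset]
  rfl

theorem walks_finite (n : ℕ) : (walks n).Finite := by
  rw [walks_eq]
  exact (Finset.finite_toSet _).image _

/-- `n`-step self-avoiding trajectories from `a` to `b` in `D` -/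
def traj (D : Set (ℤ × ℤ)) (a b : ℤ × ℤ) (n : ℕ) : Set (Fin (n + 1) → ℤ × ℤ) :=
  {γ | γ 0 = a ∧ γ (Fin.last n) = b ∧ Function.Injective γ ∧
    (∀ i : Fin n, Nbr (γ i.castSucc) (γ i.succ)) ∧ ∀ i, γ i ∈ D}

/-- the rectangle -/
def rect (t : ℝ) (H : ℤ) : Set (ℤ × ℤ) := {p | |(p.1 : ℝ)| ≤ t ∧ 0 ≤ p.2 ∧ p.2 ≤ H}

theorem traj_subset (D : Set (ℤ × ℤ)) (b : ℤ × ℤ) (n : ℕ) : traj D (0, 0) b n ⊆ walks n :=
  fun _ h => ⟨h.1, h.2.2.1, h.2.2.2.1⟩

theorem ncard_traj_le (D : Set (ℤ × ℤ)) (b : ℤ × ℤ) (n : ℕ) :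
    (traj D (0, 0) b n).ncard ≤ c n := by
  rw [← ncard_walks]
  exact Set.ncard_le_ncard (traj_subset D b n) (walks_finite n)

theorem g_le_traj {t : ℝ} {H : ℤ} {D : Set (ℤ × ℤ)} (hD : rect t H ⊆ D) (n : ℕ) :
    g H 0 ⌊t⌋ n ≤ (traj D (0, 0) (0, H) n).ncard := by
  unfold g
  rw [← Set.ncard_coe_finset]
  refine Set.ncard_le_ncard_of_injOn (fw n) ?_ ?_
    ((walks_finite n).subset (traj_subset D _ n))
  · intro w hw
    rw [Finset.mem_coe, mem_fs] at hw
    obtain ⟨hw, hn⟩ := hw
    refine ⟨by simp [fw, V], ?_, fw_injective hw.saw hn, fw_nbr hn, ?_⟩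
    · unfold fw V
      rw [Fin.val_last, List.take_of_length_le hn.le, hw.hor, hw.top]
    · intro i
      apply hD
      unfold fw V rect
      simp only [Set.mem_ofPred_eq]
      have h1 := hw.high (w.take i) (List.take_prefix _ _)
      refine ⟨?_, ?_, h1.1⟩
      · have h2 := h1.2
        rw [Int.le_floor] at h2
        push_cast at h2
        exact h2
      · by_cases h3 : w.take i = []
        · rw [h3]; simp
        · have := hw.low _ (List.take_prefix _ _) h3
          omega
  · intro w hw w' hw' h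
    rw [Finset.mem_coe, mem_fs] at hw hw'
    exact fw_inj hw.2 hw'.2 h

/-- trajectories in a finite set are short -/
theorem traj_empty {D : Set (ℤ × ℤ)} (hD : D.Finite) (a b : ℤ × ℤ) {n : ℕ} (hn : D.ncard ≤ n) :
    traj D a b n = ∅ := by
  rw [Set.eq_empty_iff_forall_notMem]
  rintro γ ⟨-, -, h1, -, h2⟩
  have h3 : (Set.range γ).ncard ≤ D.ncard := by
    apply Set.ncard_le_ncard _ hD
    rintro _ ⟨i, rfl⟩
    exact h2 i
  rw [← Set.image_univ, Set.ncard_image_of_injective _ h1, Set.ncard_univ, Nat.card_eq_fintype_card,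
    Fintype.card_fin] at h3
  omega

end Pool.Agent.H122R3.HX
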