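import Pool.Agent.H122R3.HX.Est
import Pool.Agent.H122R3.HX.Link
import Pool.Agent.H500R3.Saw.Fin5
import Pool.Agent.H982R3.Plain
import Pool.Agent.H978R2.Hex.Lower
import Pool.Agent.H978R2.Hex.Conn

/-!
Critical self-avoiding walks on the honeycomb lattice in bounded sets.
-/

set_option autoImplicit false

namespace Pool.Agent.H122R3.HX

/-- the adjacency relation of the library -/
def Adj0 (p q : ℤ × ℤ) : Prop :=
  q - p = (1, 0) ∨ q - p = (-1, 0) ∨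
    (q - p = (0, 1) ∧ Even (p.1 + p.2)) ∨ (q - p = (0, -1) ∧ Even (q.1 + q.2))

theorem nbr_iff (p q : ℤ × ℤ) : Nbr p q ↔ Adj0 p q := by
  obtain ⟨a, b⟩ := p
  obtain ⟨x, y⟩ := q
  unfold Nbr Adj0
  simp only [Prod.mk_sub_mk, Prod.mk.injEq]
  constructor
  · rintro (⟨h1, h2 | h2⟩ | ⟨h1, ⟨h2, h3⟩ | ⟨h2, h3⟩⟩)
    · right; left; omega
    · left; omega
    · right; right; left; exact ⟨by omega, h3⟩
    · right; right; right; exact ⟨by omega, h3⟩
  · rintro (h | h | ⟨h, h'⟩ | ⟨h, h'⟩)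
    · left; omega
    · left; omega
    · right; exact ⟨by omega, Or.inl ⟨by omega, h'⟩⟩
    · right; exact ⟨by omega, Or.inr ⟨by omega, h'⟩⟩

theorem walks_eq0 (n : ℕ) : walks n = {f : Fin (n + 1) → ℤ × ℤ | f 0 = 0 ∧
    Function.Injective f ∧ ∀ i : Fin n, Adj0 (f i.castSucc) (f i.succ)} := by
  ext f
  unfold walks
  simp only [Set.mem_ofPred_eq]
  constructor
  · rintro ⟨h1, h2, h3⟩
    exact ⟨h1, h2, fun i => (nbr_iff _ _).1 (h3 i)⟩
  · rintro ⟨h1, h2, h3⟩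
    exact ⟨h1, h2, fun i => (nbr_iff _ _).2 (h3 i)⟩

/-- the bounds for a graph which has coordinates in one of the word models -/
theorem bounds [L : H982.Lat] {Adj : ℤ × ℤ → ℤ × ℤ → Prop} {φ : ℤ × ℤ → ℤ × ℤ}
    {R : ℕ → ℤ × ℤ → Prop} (H : H982.Coord Adj φ R) (a : ℕ → ℕ)
    (ha : ∀ n : ℕ, a n = Set.ncard {f : Fin (n + 1) → ℤ × ℤ |
            f 0 = 0 ∧ Function.Injective f ∧
            ∀ i : Fin n, Adj (f i.castSucc) (f i.succ)}) (μ : ℝ)
    (hμ : μ = (⨅ n : {n : ℕ // 1 ≤ n}, ((a n.1 : ℝ) ^ ((1 : ℝ) / (n.1 : ℝ))))) :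
    ∃ K : ℝ, 0 ≤ K ∧ ∀ n : ℕ, 2 ≤ n →
      μ ^ n ≤ (a n : ℝ) ∧ (a n : ℝ) ≤ μ ^ n * Real.exp (K * (Real.log n) ^ 5) := by
  have ha' : ∀ n, a n = (H982.walks Adj n).ncard := ha
  have hμ' : μ = H982.mu := by
    rw [hμ, ← H982.mu_eq_iInf H]
    congr 1
    funext n
    rw [ha']
  obtain ⟨K, hK0, hK⟩ := H500S.cr'_upper5
  refine ⟨K, hK0, fun n hn => ?_⟩
  rw [hμ', ha', H982.ncard_walks H]
  exact ⟨H982.mu_pow_le n, hK n hn⟩

/-- the connective constant equals `√(2+√2)` -/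
theorem mu_eq : (⨅ n : {n : ℕ // 1 ≤ n}, (((walks n.1).ncard : ℝ) ^ ((1 : ℝ) / (n.1 : ℝ)))) =
    Real.sqrt (2 + Real.sqrt 2) := by
  have hc : ∀ n, (walks n).ncard = Set.ncard (H978R2.Hex.saws n) := by
    intro n
    rw [walks_eq0]
    rfl
  simp only [hc]
  change _ = H978R2.Hex.mu0
  refine le_antisymm H978R2.Hex.connective_le ?_
  have : Nonempty {n : ℕ // 1 ≤ n} := ⟨⟨1, le_refl 1⟩⟩
  refine le_ciInf fun n => ?_
  have h1 : H978R2.Hex.mu0 ^ n.1 ≤ (Set.ncard (H978R2.Hex.saws n.1) : ℝ) := by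
    refine le_trans ?_ (H978R2.Hex.lower' n.1)
    have h2 : 0 ≤ Real.sin (Real.pi / 8) * H978R2.Hex.Mass H978R2.Hex.SlitPlane n.1 5 :=
      mul_nonneg H978R2.Hex.sin_pi_div_eight_pos.le (H978R2.Hex.mass_nonneg _ _ _)
    nlinarith [pow_pos H978R2.Hex.mu0_pos n.1]
  have h3 : (H978R2.Hex.mu0 ^ n.1) ^ ((1 : ℝ) / (n.1 : ℝ)) ≤
      (Set.ncard (H978R2.Hex.saws n.1) : ℝ) ^ ((1 : ℝ) / (n.1 : ℝ)) :=
    Real.rpow_le_rpow (pow_pos H978R2.Hex.mu0_pos _).le h1 (by positivity)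
  have hn : n.1 ≠ 0 := by
    have := n.2
    omega
  rwa [one_div, Real.pow_rpow_inv_natCast H978R2.Hex.mu0_pos.le hn, ← one_div] at h3

theorem exists_Bd : ∃ K : ℝ, Bd (Real.sqrt (2 + Real.sqrt 2)) K := by
  obtain ⟨K, hK0, h⟩ := bounds (L := H982P.hexL) H982P.coord_hex (fun n => (walks n).ncard)
    (fun n => by rw [walks_eq0]; rfl) _ rfl
  rw [mu_eq] at h
  refine ⟨K, ⟨?_, hK0, ?_, ?_⟩⟩
  · rw [← Real.sqrt_one]
    apply Real.sqrt_le_sqrt
    have := Real.sqrt_nonneg 2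
    linarith
  · intro n hn
    have := (h n hn).1
    rwa [ncard_walks] at this
  · intro n hn
    have := (h n hn).2
    rwa [ncard_walks] at this

/-- the critical fugacity -/
noncomputable def xc : ℝ := 1 / Real.sqrt (2 + Real.sqrt 2)

/-- the critical partition function of the self-avoiding trajectories in `D` from `a` to `b` -/
noncomputable def Z (D : Set (ℤ × ℤ)) (a b : ℤ × ℤ) : ℝ :=
  ∑' n : ℕ, xc ^ n * ((traj D a b n).ncard : ℝ)

/-- the probability that the critical trajectory in `D` from `a` to `b` stays in `A` -/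
noncomputable def P (D : Set (ℤ × ℤ)) (a b : ℤ × ℤ) (A : Set (ℤ × ℤ)) : ℝ :=
  (∑' n : ℕ, xc ^ n * ({γ | γ ∈ traj D a b n ∧ ∀ i, γ i ∈ A}.ncard : ℝ)) / Z D a b

theorem P_eq {D A : Set (ℤ × ℤ)} (a b : ℤ × ℤ) (h : A ⊆ D) : P D a b A = Z A a b / Z D a b := by
  unfold P
  congr 1
  unfold Z
  congr 1
  funext n
  congr 3
  ext γ
  constructor
  · rintro ⟨⟨h1, h2, h3, h4, -⟩, h5⟩
    exact ⟨h1, h2, h3, h4, h5⟩
  · rintro ⟨h1, h2, h3, h4, h5⟩
    exact ⟨⟨h1, h2, h3, h4, fun i => h (h5 i)⟩, h5⟩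

theorem Z_eq {D : Set (ℤ × ℤ)} (hD : D.Finite) (a b : ℤ × ℤ) {N : ℕ} (hN : D.ncard ≤ N) :
    Z D a b = ∑ n ∈ Finset.range N, xc ^ n * ((traj D a b n).ncard : ℝ) := by
  unfold Z
  apply tsum_eq_sum
  intro n hn
  rw [Finset.mem_range, not_lt] at hn
  rw [traj_empty hD a b (hN.trans hn)]
  simp

theorem xc_pos : 0 < xc := by
  unfold xc
  have : 0 < Real.sqrt (2 + Real.sqrt 2) := Real.sqrt_pos.2 (by
    have := Real.sqrt_nonneg 2
    linarith)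
  positivity

theorem Z_ge {D : Set (ℤ × ℤ)} (hD : D.Finite) (a b : ℤ × ℤ) (n : ℕ) :
    xc ^ n * ((traj D a b n).ncard : ℝ) ≤ Z D a b := by
  rw [Z_eq hD a b (N := max D.ncard (n + 1)) (le_max_left _ _)]
  apply Finset.single_le_sum (f := fun n => xc ^ n * ((traj D a b n).ncard : ℝ))
  · intro i _
    have := xc_pos
    positivity
  · rw [Finset.mem_range]
    have := le_max_right D.ncard (n + 1)
    omega

theorem Z_upper {K : ℝ} (h : Bd (Real.sqrt (2 + Real.sqrt 2)) K) {D : Set (ℤ × ℤ)}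
    (hD : D.Finite) (b : ℤ × ℤ) {N : ℕ} (hN : D.ncard ≤ N) (hN2 : 2 ≤ N) :
    Z D (0, 0) b ≤ 3 * N * Real.exp (K * Real.log N ^ 5) := by
  have hμ0 : 0 < Real.sqrt (2 + Real.sqrt 2) := by linarith [h.one]
  rw [Z_eq hD _ _ hN]
  calc ∑ n ∈ Finset.range N, xc ^ n * ((traj D (0, 0) b n).ncard : ℝ)
      ≤ ∑ n ∈ Finset.range N, 3 * Real.exp (K * Real.log N ^ 5) := by
        refine Finset.sum_le_sum fun n hn => ?_
        rw [Finset.mem_range] at hn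
        have e1 := h.c_le3 (a := n) (n := N) hn.le hN2
        have e2 : ((traj D (0, 0) b n).ncard : ℝ) ≤ c n := by exact_mod_cast ncard_traj_le D b n
        have e3 : xc ^ n * Real.sqrt (2 + Real.sqrt 2) ^ n = 1 := by
          unfold xc
          rw [← mul_pow, one_div_mul_cancel hμ0.ne', one_pow]
        have e4 : 0 < xc ^ n := pow_pos xc_pos n
        calc xc ^ n * ((traj D (0, 0) b n).ncard : ℝ) ≤
            xc ^ n * (3 * Real.sqrt (2 + Real.sqrt 2) ^ n * Real.exp (K * Real.log N ^ 5)) := by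
              apply mul_le_mul_of_nonneg_left (e2.trans e1) e4.le
          _ = (xc ^ n * Real.sqrt (2 + Real.sqrt 2) ^ n) *
              (3 * Real.exp (K * Real.log N ^ 5)) := by ring
          _ = _ := by rw [e3, one_mul]
    _ = _ := by
        rw [Finset.sum_const, Finset.card_range, nsmul_eq_mul]
        ring

theorem box_bound {M : ℝ} {L : ℕ} {D : Set (ℤ × ℤ)}
    (hD : ∀ p ∈ D, |(p.1 : ℝ)| ≤ M * L ∧ |(p.2 : ℝ)| ≤ M * L) :
    D.Finite ∧ D.ncard ≤ (2 * ⌊|M| * L⌋₊ + 1) ^ 2 := by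
  have hsub : D ⊆ ((Finset.Icc (-(⌊|M| * L⌋₊ : ℤ)) ⌊|M| * L⌋₊ ×ˢ
      Finset.Icc (-(⌊|M| * L⌋₊ : ℤ)) ⌊|M| * L⌋₊ : Finset (ℤ × ℤ)) : Set (ℤ × ℤ)) := by
    intro p hp
    have h1 := hD p hp
    have h2 : M * L ≤ |M| * L := mul_le_mul_of_nonneg_right (le_abs_self M) (Nat.cast_nonneg L)
    have key : ∀ z : ℤ, |(z : ℝ)| ≤ M * L → -(⌊|M| * L⌋₊ : ℤ) ≤ z ∧ z ≤ (⌊|M| * L⌋₊ : ℤ) := by
      intro z hz
      have h3 : z.natAbs ≤ ⌊|M| * L⌋₊ := by
        apply Nat.le_floor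
        rw [Nat.cast_natAbs, Int.cast_abs]
        exact hz.trans h2
      omega
    rw [Finset.mem_coe, Finset.mem_product, Finset.mem_Icc, Finset.mem_Icc]
    exact ⟨key _ h1.1, key _ h1.2⟩
  refine ⟨(Finset.finite_toSet _).subset hsub, ?_⟩
  refine (Set.ncard_le_ncard hsub (Finset.finite_toSet _)).trans ?_
  rw [Set.ncard_coe_finset, Finset.card_product, Int.card_Icc]
  have : ((⌊|M| * L⌋₊ : ℤ) + 1 - -(⌊|M| * L⌋₊ : ℤ)).toNat = 2 * ⌊|M| * L⌋₊ + 1 := by omega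
  rw [this, sq]

/-- **Critical trajectories between the midpoints of opposite sides of a rectangle.** -/
theorem final (ε M : ℝ) (hε : 0 < ε) : ∃ K : ℝ, ∀ L : ℕ, 2 ≤ L → 1 ≤ ε * L →
    ∀ D : Set (ℤ × ℤ), rect (ε * L) (2 * L) ⊆ D →
      (∀ p ∈ D, |(p.1 : ℝ)| ≤ M * L ∧ |(p.2 : ℝ)| ≤ M * L) →
      Real.exp (-(K * Real.log L ^ 5)) ≤ Z D (0, 0) (0, 2 * L) ∧
      Z D (0, 0) (0, 2 * L) ≤ Real.exp (K * Real.log L ^ 5) ∧
      Real.exp (-(K * Real.log L ^ 5)) ≤ P D (0, 0) (0, 2 * L) (rect (ε * L) (2 * L)) := by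
  obtain ⟨K, hB⟩ := exists_Bd
  obtain ⟨K3, hK3, h3⟩ := main_lower hB hε
  have hlog2 : 0 < Real.log 2 := Real.log_pos (by norm_num)
  obtain ⟨A, hA⟩ : ∃ A, A = (2 * |M| + 3) ^ 2 := ⟨_, rfl⟩
  have hA9 : 9 ≤ A := by
    rw [hA]
    nlinarith [abs_nonneg M]
  have hlA : 0 ≤ Real.log A := Real.log_nonneg (by linarith)
  obtain ⟨q, hq⟩ : ∃ q, q = Real.log A / Real.log 2 + 2 := ⟨_, rfl⟩
  have hq0 : 0 ≤ q := by rw [hq]; positivity
  have hKn := hB.Kn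
  obtain ⟨K4, hK4⟩ : ∃ K4, K4 = Real.log 3 / Real.log 2 ^ 5 + q / Real.log 2 ^ 4 + K * q ^ 5 :=
    ⟨_, rfl⟩
  have hlog3 : 0 ≤ Real.log 3 := Real.log_nonneg (by norm_num)
  have hK40 : 0 ≤ K4 := by rw [hK4]; positivity
  refine ⟨K3 + K4, ?_⟩
  intro L hL hεL D hD1 hD2
  have hLr : (2 : ℝ) ≤ L := by exact_mod_cast hL
  obtain ⟨l, hl⟩ : ∃ l, l = Real.log (L : ℝ) := ⟨_, rfl⟩
  have hl2 : Real.log 2 ≤ l := by rw [hl]; exact Real.log_le_log (by norm_num) hLr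
  have hl0 : 0 < l := by linarith
  obtain ⟨hDf, hDc⟩ := box_bound hD2
  have hRf : (rect (ε * L) (2 * L)).Finite := hDf.subset hD1
  -- lower bound for the rectangle
  obtain ⟨n, hn⟩ := h3 L hL hεL
  have hlow : ∀ E : Set (ℤ × ℤ), E.Finite → rect (ε * L) (2 * L) ⊆ E →
      Real.exp (-(K3 * l ^ 5)) ≤ Z E (0, 0) (0, 2 * L) := by
    intro E hE1 hE2
    refine le_trans ?_ (Z_ge hE1 _ _ n)
    rw [← hl] at hn
    refine hn.trans ?_
    have h4 : (g (2 * L) 0 ⌊ε * L⌋ n : ℝ) ≤ ((traj E (0, 0) (0, 2 * L) n).ncard : ℝ) := by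
      exact_mod_cast g_le_traj hE2 n
    have h5 : 0 < xc ^ n := pow_pos xc_pos n
    calc (g (2 * L) 0 ⌊ε * L⌋ n : ℝ) / Real.sqrt (2 + Real.sqrt 2) ^ n
        = xc ^ n * (g (2 * L) 0 ⌊ε * L⌋ n : ℝ) := by
          unfold xc
          rw [div_pow, one_pow]
          ring
      _ ≤ _ := mul_le_mul_of_nonneg_left h4 h5.le
  have hup : Z D (0, 0) (0, 2 * L) ≤ Real.exp (K4 * l ^ 5) := by
    obtain ⟨N, hN⟩ : ∃ N, N = (2 * ⌊|M| * L⌋₊ + 1) ^ 2 + 2 := ⟨_, rfl⟩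
    have h4 := Z_upper hB hDf (0, 2 * L) (N := N) (by omega) (by omega)
    have h5 : (N : ℝ) ≤ A * L ^ 2 := by
      have h6 : (⌊|M| * L⌋₊ : ℝ) ≤ |M| * L := Nat.floor_le (by positivity)
      have h7 : (0 : ℝ) ≤ (⌊|M| * L⌋₊ : ℝ) := Nat.cast_nonneg _
      rw [hN, hA]
      push_cast
      have h8 : (2 * (⌊|M| * L⌋₊ : ℝ) + 1) ^ 2 ≤ (2 * (|M| * L) + 1) ^ 2 := by
        apply pow_le_pow_left₀ (by positivity)
        linarith
      have h9 : 0 ≤ |M| := abs_nonneg M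
      have h10 : (2 * (|M| * L) + 1) ≤ (2 * |M| + 1) * L := by nlinarith
      have h11 : (2 * (|M| * L) + 1) ^ 2 ≤ ((2 * |M| + 1) * L) ^ 2 :=
        pow_le_pow_left₀ (by positivity) h10 2
      have h12 : (2 : ℝ) ≤ L ^ 2 := by nlinarith
      nlinarith [mul_nonneg h9 (sq_nonneg (L : ℝ))]
    have hNr : (1 : ℝ) ≤ N := by exact_mod_cast (by omega : 1 ≤ N)
    have h13 : Real.log N ≤ q * l := by
      calc Real.log N ≤ Real.log (A * L ^ 2) := Real.log_le_log (by linarith) h5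
        _ = Real.log A + 2 * l := by
            rw [Real.log_mul (by positivity) (by positivity), Real.log_pow, ← hl]
            push_cast
            ring
        _ ≤ Real.log A / Real.log 2 * l + 2 * l := by
            have : Real.log A ≤ Real.log A / Real.log 2 * l := by
              rw [div_mul_eq_mul_div, le_div_iff₀ hlog2]
              gcongr
            linarith
        _ = _ := by rw [hq]; ring
    have h14 : 0 ≤ Real.log N := Real.log_nonneg hNr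
    have h15 : Real.log N ^ 5 ≤ q ^ 5 * l ^ 5 := by
      rw [← mul_pow]
      exact pow_le_pow_left₀ h14 h13 5
    have hl5 : Real.log 2 ^ 5 ≤ l ^ 5 := pow_le_pow_left₀ hlog2.le hl2 5
    have hl4 : Real.log 2 ^ 4 ≤ l ^ 4 := pow_le_pow_left₀ hlog2.le hl2 4
    refine h4.trans ?_
    calc 3 * (N : ℝ) * Real.exp (K * Real.log N ^ 5) =
          Real.exp (Real.log 3 + Real.log N + K * Real.log N ^ 5) := by
          rw [Real.exp_add, Real.exp_add, Real.exp_log (by norm_num), Real.exp_log (by linarith)]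
      _ ≤ _ := by
          apply Real.exp_le_exp.2
          have a1 : Real.log 3 ≤ Real.log 3 / Real.log 2 ^ 5 * l ^ 5 := by
            rw [div_mul_eq_mul_div, le_div_iff₀ (by positivity)]
            gcongr
          have a2 : q * l ≤ q / Real.log 2 ^ 4 * l ^ 5 := by
            rw [div_mul_eq_mul_div, le_div_iff₀ (by positivity)]
            calc q * l * Real.log 2 ^ 4 ≤ q * l * l ^ 4 := by gcongr
              _ = _ := by ring
          have a3 : K * Real.log N ^ 5 ≤ K * (q ^ 5 * l ^ 5) := by gcongr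
          rw [hK4]
          nlinarith
  have hKl : K3 * l ^ 5 ≤ (K3 + K4) * l ^ 5 := by
    have : 0 ≤ K4 * l ^ 5 := by positivity
    linarith
  have hKl' : K4 * l ^ 5 ≤ (K3 + K4) * l ^ 5 := by
    have : 0 ≤ K3 * l ^ 5 := by positivity
    linarith
  rw [← hl]
  have hZ := hlow D hDf hD1
  refine ⟨(Real.exp_le_exp.2 (by linarith)).trans hZ, hup.trans (Real.exp_le_exp.2 hKl'), ?_⟩
  rw [P_eq _ _ hD1]
  have hZpos : 0 < Z D (0, 0) (0, 2 * L) := lt_of_lt_of_le (Real.exp_pos _) hZ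
  rw [le_div_iff₀ hZpos]
  calc Real.exp (-((K3 + K4) * l ^ 5)) * Z D (0, 0) (0, 2 * L)
      ≤ Real.exp (-((K3 + K4) * l ^ 5)) * Real.exp (K4 * l ^ 5) := by gcongr
    _ = Real.exp (-(K3 * l ^ 5)) := by
        rw [← Real.exp_add]
        congr 1
        ring
    _ ≤ _ := hlow _ hRf (subset_refl _)

end Pool.Agent.H122R3.HX
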