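import Mathlib

/-!
Gluing self-avoiding paths in a graph: the weight of the paths from `a` to `b` in `A ∪ B` is at
least the product of the weights from `a` to `v` in `A` and from `v` to `b` in `B`, up to the square
of the weight of all paths from a point.
-/

set_option autoImplicit false

namespace Pool.Agent.H122R3.HX

open scoped ENNReal

section

variable {V : Type} (Adj : V → V → Prop)

/-- self-avoiding paths in `D` from `a` to `b`, as lists of vertices -/
def TL (D : Set V) (a b : V) : Set (List V) :=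
  {l | l.head? = some a ∧ l.getLast? = some b ∧ l.Nodup ∧ l.IsChain Adj ∧ ∀ p ∈ l, p ∈ D}

/-- the weight of the paths -/
noncomputable def ZL (x : ℝ≥0∞) (D : Set V) (a b : V) : ℝ≥0∞ :=
  ∑' l : TL Adj D a b, x ^ (l.1.length - 1)

/-- self-avoiding paths with at most `N` vertices -/
def Good (N : ℕ) (r : List V) : Prop := r ≠ [] ∧ r.Nodup ∧ r.IsChain Adj ∧ r.length ≤ N

open scoped Classical in
/-- weight of a path with given starting point -/
noncomputable def gw (x : ℝ≥0∞) (N : ℕ) (o : Option V) (r : List V) : ℝ≥0∞ :=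
  if r.head? = o ∧ Good Adj N r then x ^ (r.length - 1) else 0

theorem split_exists (l1 l2 : List V) (h : ∃ v, v ∈ l1 ∧ v ∈ l2) :
    ∃ u p r s t, l1 = u ++ p :: r ∧ l2 = s ++ p :: t ∧ ∀ q ∈ u, q ∉ l2 := by
  classical
  induction l1 with
  | nil => obtain ⟨v, hv, -⟩ := h; simp at hv
  | cons q l ih =>
    by_cases hq : q ∈ l2
    · obtain ⟨s, t, hst⟩ := List.append_of_mem hq
      exact ⟨[], q, l, s, t, rfl, hst, by simp⟩
    · obtain ⟨v, hv1, hv2⟩ := h
      rw [List.mem_cons] at hv1
      have hvl : v ∈ l := by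
        rcases hv1 with rfl | hv1
        · exact absurd hv2 hq
        · exact hv1
      obtain ⟨u, p, r, s, t, h1, h2, h3⟩ := ih ⟨v, hvl, hv2⟩
      refine ⟨q :: u, p, r, s, t, by rw [h1]; rfl, h2, ?_⟩
      intro z hz
      rw [List.mem_cons] at hz
      rcases hz with rfl | hz
      · exact hq
      · exact h3 z hz

theorem last_append (s t : List V) (p : V) : (s ++ p :: t).getLast? = (p :: t).getLast? := by
  rw [List.getLast?_append]
  simp [List.getLast?_cons]

theorem head_append (u r t : List V) (p : V) : (u ++ p :: r).head? = (u ++ p :: t).head? := by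
  rw [List.head?_append, List.head?_append]
  simp

variable {Adj}

theorem glue_exists (hsymm : ∀ p q, Adj p q → Adj q p) {A B : Set V} {a v b : V} {N : ℕ}
    (hN : ∀ l : List V, l.Nodup → (∀ p ∈ l, p ∈ A ∪ B) → l.length ≤ N) (l1 l2 : List V)
    (h1 : l1 ∈ TL Adj A a v) (h2 : l2 ∈ TL Adj B v b) :
    ∃ (w : List V) (i : ℕ) (r s : List V), w ∈ TL Adj (A ∪ B) a b ∧ i < N ∧
      (r.head? = w[i]? ∧ Good Adj N r) ∧ (s.head? = w[i]? ∧ Good Adj N s) ∧
      (l1.length - 1) + (l2.length - 1) = (w.length - 1) + ((r.length - 1) + (s.length - 1)) ∧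
      l1 = w.take i ++ r ∧ l2 = s.reverse ++ (w.drop i).tail := by
  obtain ⟨ha1, ha2, ha3, ha4, ha5⟩ := h1
  obtain ⟨hb1, hb2, hb3, hb4, hb5⟩ := h2
  have hv1 : v ∈ l1 := List.mem_of_getLast? ha2
  have hv2 : v ∈ l2 := List.mem_of_head? hb1
  have hl1 := hN l1 ha3 (fun p hp => Or.inl (ha5 p hp))
  have hl2 := hN l2 hb3 (fun p hp => Or.inr (hb5 p hp))
  obtain ⟨u, p, r, s, t, e1, e2, hd⟩ := split_exists l1 l2 ⟨v, hv1, hv2⟩
  have hwi : (u ++ p :: t)[u.length]? = some p := by
    simp
  refine ⟨u ++ p :: t, u.length, p :: r, p :: s.reverse, ?_, ?_, ⟨?_, ?_⟩, ⟨?_, ?_⟩, ?_, ?_, ?_⟩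
  · refine ⟨?_, ?_, ?_, ?_, ?_⟩
    · rw [head_append u t r p, ← e1]; exact ha1
    · rw [last_append, ← last_append s t p, ← e2]; exact hb2
    · rw [e1, List.nodup_append] at ha3
      rw [e2, List.nodup_append] at hb3
      rw [List.nodup_append]
      refine ⟨ha3.1, hb3.2.1, ?_⟩
      intro z hz y hy hzy
      apply hd z hz
      rw [e2, hzy]
      exact List.mem_append_right _ hy
    · rw [e1, List.isChain_append] at ha4
      rw [e2, List.isChain_append] at hb4
      rw [List.isChain_append]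
      refine ⟨ha4.1, hb4.2.1, ?_⟩
      intro z hz y hy
      apply ha4.2.2 z hz y
      simpa using hy
    · intro z hz
      rw [List.mem_append] at hz
      rcases hz with hz | hz
      · left; apply ha5; rw [e1]; exact List.mem_append_left _ hz
      · right; apply hb5; rw [e2]; exact List.mem_append_right _ hz
  · rw [e1, List.length_append, List.length_cons] at hl1
    omega
  · rw [hwi]; rfl
  · refine ⟨by simp, ?_, ?_, ?_⟩
    · rw [e1, List.nodup_append] at ha3
      exact ha3.2.1
    · rw [e1, List.isChain_append] at ha4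
      exact ha4.2.1
    · rw [e1, List.length_append] at hl1
      omega
  · rw [hwi]; rfl
  · have hs : p :: s.reverse = (s ++ [p]).reverse := by simp
    have hpre : s ++ [p] <+: l2 := ⟨t, by rw [e2]; simp⟩
    refine ⟨by simp, ?_, ?_, ?_⟩
    · rw [hs, List.nodup_reverse]
      exact hb3.sublist hpre.sublist
    · rw [hs, List.isChain_reverse]
      have h9 : List.IsChain Adj (s ++ [p]) := by
        have h8 := hb4
        rw [e2, show s ++ p :: t = (s ++ [p]) ++ t by simp, List.isChain_append] at h8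
        exact h8.1
      exact h9.imp (fun a b h => hsymm a b h)
    · rw [e2, List.length_append] at hl2
      simp only [List.length_cons, List.length_reverse] at hl2 ⊢
      omega
  · rw [e1, e2]
    simp only [List.length_append, List.length_cons, List.length_reverse]
    omega
  · rw [List.take_left', e1]
    rfl
  · rw [List.drop_left', e2]
    · simp
    · rfl

open scoped Classical in
theorem glue (hsymm : ∀ p q, Adj p q → Adj q p) {A B : Set V} {a v b : V} {N : ℕ}
    (hN : ∀ l : List V, l.Nodup → (∀ p ∈ l, p ∈ A ∪ B) → l.length ≤ N) (x Q : ℝ≥0∞)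
    (hQ : ∀ p : V, ∑' r : List V, gw Adj x N (some p) r ≤ Q) :
    ZL Adj x A a v * ZL Adj x B v b ≤ N * Q ^ 2 * ZL Adj x (A ∪ B) a b := by
  have hex : ∀ q : TL Adj A a v × TL Adj B v b, ∃ y : TL Adj (A ∪ B) a b × Fin N × List V × List V,
      x ^ (q.1.1.length - 1) * x ^ (q.2.1.length - 1) = x ^ (y.1.1.length - 1) *
        (gw Adj x N (y.1.1[(y.2.1 : ℕ)]?) y.2.2.1 * gw Adj x N (y.1.1[(y.2.1 : ℕ)]?) y.2.2.2) ∧
      q.1.1 = y.1.1.take y.2.1 ++ y.2.2.1 ∧
      q.2.1 = y.2.2.2.reverse ++ (y.1.1.drop y.2.1).tail := by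
    rintro ⟨⟨l1, h1⟩, ⟨l2, h2⟩⟩
    obtain ⟨w, i, r, s, hw, hi, hr, hs, hlen, e1, e2⟩ := glue_exists hsymm hN l1 l2 h1 h2
    refine ⟨(⟨w, hw⟩, ⟨i, hi⟩, r, s), ?_, e1, e2⟩
    simp only
    unfold gw
    rw [if_pos hr, if_pos hs, ← pow_add, ← pow_add, ← pow_add, hlen]
  choose Φ hΦ1 hΦ2 hΦ3 using hex
  have hinj : Function.Injective Φ := by
    intro q q' h
    have a1 := hΦ2 q
    have a2 := hΦ2 q'
    have b1 := hΦ3 q
    have b2 := hΦ3 q'
    rw [h] at a1 b1
    exact Prod.ext (Subtype.ext (a1.trans a2.symm)) (Subtype.ext (b1.trans b2.symm))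
  have hQ' : ∀ o : Option V, ∑' r : List V, gw Adj x N o r ≤ Q := by
    intro o
    cases o with
    | some p => exact hQ p
    | none =>
      have : ∀ r : List V, gw Adj x N none r = 0 := by
        intro r
        unfold gw
        rw [if_neg]
        rintro ⟨h, h', -⟩
        rw [List.head?_eq_none_iff] at h
        exact h' h
      simp [this]
  calc ZL Adj x A a v * ZL Adj x B v b
      = ∑' q : TL Adj A a v × TL Adj B v b, x ^ (q.1.1.length - 1) * x ^ (q.2.1.length - 1) := by
        unfold ZL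
        rw [ENNReal.tsum_prod', ← ENNReal.tsum_mul_right]
        congr 1
        funext l
        exact ENNReal.tsum_mul_left.symm
    _ = ∑' q, (fun y : TL Adj (A ∪ B) a b × Fin N × List V × List V => x ^ (y.1.1.length - 1) *
        (gw Adj x N (y.1.1[(y.2.1 : ℕ)]?) y.2.2.1 * gw Adj x N (y.1.1[(y.2.1 : ℕ)]?) y.2.2.2))
          (Φ q) := by
        congr 1
        funext q
        exact hΦ1 q
    _ ≤ ∑' y : TL Adj (A ∪ B) a b × Fin N × List V × List V, x ^ (y.1.1.length - 1) *
        (gw Adj x N (y.1.1[(y.2.1 : ℕ)]?) y.2.2.1 *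
          gw Adj x N (y.1.1[(y.2.1 : ℕ)]?) y.2.2.2) :=
        ENNReal.tsum_comp_le_tsum_of_injective hinj _
    _ ≤ ∑' l : TL Adj (A ∪ B) a b, x ^ (l.1.length - 1) * (N * Q ^ 2) := by
        rw [ENNReal.tsum_prod']
        refine ENNReal.tsum_le_tsum fun l => ?_
        rw [ENNReal.tsum_prod']
        simp only
        calc ∑' (i : Fin N) (z : List V × List V), x ^ (l.1.length - 1) *
              (gw Adj x N (l.1[(i : ℕ)]?) z.1 * gw Adj x N (l.1[(i : ℕ)]?) z.2)
            ≤ ∑' _i : Fin N, x ^ (l.1.length - 1) * Q ^ 2 := by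
              refine ENNReal.tsum_le_tsum fun i => ?_
              rw [ENNReal.tsum_mul_left]
              refine mul_le_mul' le_rfl ?_
              rw [ENNReal.tsum_prod', sq]
              simp only [ENNReal.tsum_mul_left, ENNReal.tsum_mul_right]
              exact mul_le_mul' (hQ' _) (hQ' _)
          _ = _ := by
              rw [tsum_fintype, Finset.sum_const, Finset.card_univ, Fintype.card_fin, nsmul_eq_mul]
              ring
    _ = _ := by
        rw [ENNReal.tsum_mul_right, mul_comm]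
        rfl

end

end Pool.Agent.H122R3.HX
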