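import Pool.Agent.H122R3.HX.Words

/-!
Concatenation of crossing words: words which connect two vertices on the same vertical line and
stay in a rectangle.
-/

set_option autoImplicit false

namespace Pool.Agent.H122R3.HX

/-- horizontal displacement -/
def X (w : W) : ℤ := pos w 1 - pos w 2

@[simp] theorem X_nil : X [] = 0 := by simp [X]

theorem X_append (u v : W) : X (u ++ v) = X u + (-1) ^ u.length * X v := by
  unfold X
  rw [pos_append, pos_append]
  ring

/-- pieces: self-avoiding words of even length which go up by `H` levels and by `x` to the right,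
stay strictly above the starting level after the start, and between the two levels, at horizontal
distance at most `T` -/
structure G (H x T : ℤ) (w : W) : Prop where
  saw : Saw w
  even : w.length % 2 = 0
  top : pos w 0 = H
  hor : X w = x
  low : ∀ v, v <+: w → v ≠ [] → 1 ≤ pos v 0
  high : ∀ v, v <+: w → pos v 0 ≤ H ∧ |X v| ≤ T

theorem G.nonneg {H x T : ℤ} {w : W} (h : G H x T w) : 0 ≤ H := by
  have := (h.high [] (List.nil_prefix)).1
  simpa using this

theorem G.T_nonneg {H x T : ℤ} {w : W} (h : G H x T w) : 0 ≤ T := by
  have := (h.high [] (List.nil_prefix)).2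
  simpa using this

theorem G.mono {H x T T' : ℤ} {w : W} (h : G H x T w) (hT : T ≤ T') : G H x T' w :=
  ⟨h.saw, h.even, h.top, h.hor, h.low, fun v hv => ⟨(h.high v hv).1, (h.high v hv).2.trans hT⟩⟩

theorem G_nil : G 0 0 0 [] := by
  refine ⟨?_, rfl, rfl, X_nil, ?_, ?_⟩
  · intro v hv h0
    exact absurd (List.infix_nil.1 hv) h0
  · intro v hv h0
    exact absurd (List.prefix_nil.1 hv) h0
  · intro v hv
    rw [List.prefix_nil.1 hv]
    simp

/-- prefixes of a concatenation -/
theorem prefix_append_cases {v a b : W} (h : v <+: a ++ b) :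
    v <+: a ∨ ∃ p, v = a ++ p ∧ p <+: b := by
  rcases List.prefix_or_prefix_of_prefix h (List.prefix_append a b) with h1 | ⟨p, rfl⟩
  · left; exact h1
  · right
    exact ⟨p, rfl, (List.prefix_append_right_inj a).1 h⟩

/-- infixes of a concatenation -/
theorem infix_append_cases {v a b : W} (h : v <:+: a ++ b) :
    v <:+: a ∨ v <:+: b ∨ ∃ s p, s ≠ [] ∧ p ≠ [] ∧ s <:+ a ∧ p <+: b ∧ v = s ++ p := by
  induction a with
  | nil => right; left; simpa using h
  | cons l a ih =>
    rw [List.cons_append, List.infix_cons_iff] at h
    rcases h with h | h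
    · -- prefix
      rcases List.prefix_cons_iff.1 h with h | ⟨t, rfl, ht⟩
      · left; rw [h]; exact List.nil_infix
      · rcases prefix_append_cases ht with ht | ⟨p, rfl, hp⟩
        · left
          exact ((List.cons_prefix_cons.2 ⟨rfl, ht⟩ : l :: t <+: l :: a)).isInfix
        · by_cases hp0 : p = []
          · left
            rw [hp0, List.append_nil]
          · right; right
            exact ⟨l :: a, p, by simp, hp0, List.suffix_refl _, hp, rfl⟩
    · rcases ih h with h | h | ⟨s, p, h1, h2, h3, h4, h5⟩
      · left; exact h.trans (List.suffix_cons l a).isInfix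
      · right; left; exact h
      · right; right
        exact ⟨s, p, h1, h2, h3.trans (List.suffix_cons l a), h4, h5⟩

theorem G.append {H x T H' x' T' : ℤ} {a b : W} (ha : G H x T a) (hb : G H' x' T' b) :
    G (H + H') (x + x') (max T (|x| + T')) (a ++ b) := by
  have hsg : (-1 : ℤ) ^ a.length = 1 := by
    rcases sgn_cases a.length with h | h
    · exact h.1
    · have := ha.even; omega
  have hH' := hb.nonneg
  refine ⟨?_, ?_, ?_, ?_, ?_, ?_⟩
  · intro v hv h0
    rcases infix_append_cases hv with h | h | ⟨s, p, hs0, hp0, ⟨q, hq⟩, hp, rfl⟩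
    · exact ha.saw v h h0
    · exact hb.saw v h h0
    · refine ⟨0, ?_⟩
      rw [pos_append]
      have h1 := hb.low p hp hp0
      have h2 := (ha.high q ⟨s, hq⟩).1
      have h3 := ha.top
      rw [← hq, pos_append] at h3
      have h4 := ha.even
      rw [← hq, List.length_append] at h4
      rcases sgn_cases s.length with ⟨e1, e2⟩ | ⟨e1, e2⟩ <;>
        rcases sgn_cases q.length with ⟨e3, e4⟩ | ⟨e3, e4⟩ <;> rw [e3] at h3 <;> rw [e1] <;> omega
  · rw [List.length_append]
    have := ha.even
    have := hb.even
    omega
  · rw [pos_append, hsg, ha.top, hb.top]; ring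
  · rw [X_append, hsg, ha.hor, hb.hor]; ring
  · intro v hv h0
    rcases prefix_append_cases hv with hv | ⟨p, rfl, hp⟩
    · exact ha.low v hv h0
    · by_cases hp0 : p = []
      · rw [hp0, List.append_nil] at h0 ⊢
        exact ha.low a (List.prefix_refl _) h0
      · rw [pos_append, hsg, ha.top]
        have := hb.low p hp hp0
        have := ha.nonneg
        omega
  · intro v hv
    rcases prefix_append_cases hv with hv | ⟨p, rfl, hp⟩
    · have := ha.high v hv
      exact ⟨by omega, this.2.trans (le_max_left _ _)⟩
    · have h1 := hb.high p hp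
      rw [pos_append, X_append, hsg, ha.top, ha.hor, one_mul, one_mul]
      refine ⟨by omega, le_trans ?_ (le_max_right _ _)⟩
      exact (abs_add_le _ _).trans (by linarith [h1.2])

theorem UB.odd {S : ℤ} {w : W} (h : UB 0 S w) (hS : 1 ≤ S) : w.length % 2 = 1 := by
  obtain ⟨-, -, h3, h4⟩ := h
  rcases List.eq_nil_or_concat w with rfl | ⟨y, l, rfl⟩
  · rw [pos_nil] at h3; omega
  · rw [List.concat_eq_append] at h3 h4 ⊢
    rw [pos_append, pos_cons, pos_nil] at h3
    rw [List.length_append, List.length_singleton]
    by_cases hy : y = []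
    · rw [hy]; rfl
    · have h5 := h4 y (List.prefix_append _ _) hy (by
        intro h
        have := congrArg List.length h
        simp at this)
      rcases sgn_cases y.length with ⟨e1, e2⟩ | ⟨e1, e2⟩
      · omega
      · rw [e1] at h3
        split_ifs at h3 <;> omega

/-- a crossing word followed by a horizontal step is a piece -/
theorem UB.piece {S : ℤ} {w : W} (h : UB 0 S w) (hS : 1 ≤ S) {l : Fin 3} (hl : l ≠ 0) :
    G S (X w - X [l]) (2 * S + 1) (w ++ [l]) := by
  have hodd := h.odd hS
  obtain ⟨h1, h2, h3, h4⟩ := h
  have hsg : (-1 : ℤ) ^ w.length = -1 := by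
    rcases sgn_cases w.length with h | h
    · omega
    · exact h.1
  have hl0 : pos [l] 0 = 0 := by
    rw [pos_cons, pos_nil, if_neg (Ne.symm hl)]; rfl
  have hXl : |X [l]| ≤ 1 := by
    unfold X
    simp only [pos_cons, pos_nil]
    fin_cases l <;> simp
  have hX : ∀ v, v <:+: w → |X v| ≤ 2 * S := by
    intro v hv
    have a1 := h2 v hv 1
    have a2 := h2 v hv 2
    unfold X
    rw [abs_le] at *
    constructor <;> omega
  have hpre : ∀ v, v <+: w ++ [l] → v <+: w ∨ v = w ++ [l] := by
    intro v hv
    rw [List.prefix_concat_iff] at hv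
    tauto
  refine ⟨?_, ?_, ?_, ?_, ?_, ?_⟩
  · intro v hv h0
    rw [List.infix_concat_iff] at hv
    rcases hv with hv | hv
    · rw [List.suffix_concat_iff] at hv
      rcases hv with hv | ⟨s, rfl, hs⟩
      · exact absurd hv h0
      · by_cases hs0 : s = []
        · refine ⟨l, ?_⟩
          rw [hs0]
          simp
        · refine ⟨0, ?_⟩
          rw [pos_append, hl0]
          obtain ⟨q, hq⟩ := hs
          by_cases hq0 : q = []
          · rw [hq0, List.nil_append] at hq
            rw [hq, h3]
            omega
          · have h5 := (h4 q ⟨s, hq⟩ hq0 (by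
              intro h
              rw [h] at hq
              have := congrArg List.length hq
              rw [List.length_append] at this
              have := List.length_pos_of_ne_nil hs0
              omega)).2
            rw [← hq, pos_append] at h3
            intro h6
            have h7 : pos s 0 = 0 := by omega
            rw [h7] at h3
            omega
    · exact h1 v hv h0
  · rw [List.length_append, List.length_singleton]; omega
  · rw [pos_append, hl0, h3]; ring
  · rw [X_append, hsg]; ring
  · intro v hv h0
    rcases hpre v hv with hv | rfl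
    · by_cases hvw : v = w
      · rw [hvw, h3]; exact hS
      · exact (h4 v hv h0 hvw).1
    · rw [pos_append, hl0, h3]; omega
  · intro v hv
    rcases hpre v hv with hv | rfl
    · have h5 := hX v hv.isInfix
      refine ⟨?_, by omega⟩
      have := h2 v hv.isInfix 0
      rw [abs_le] at this
      exact this.2
    · refine ⟨by rw [pos_append, hl0, h3]; omega, ?_⟩
      have h5 := hX w (List.infix_refl _)
      rw [X_append, hsg]
      rw [abs_le] at *
      constructor <;> omega

/-- the elementary piece -/
theorem G_elem : G 2 0 1 [0, 1, 0, 2] := by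
  refine ⟨?_, rfl, by decide, by decide, ?_, ?_⟩
  · intro v hv h0
    have hv' : v ∈ ([0, 1, 0, 2] : W).sublists := List.mem_sublists.2 hv.sublist
    have key : ∀ v ∈ ([0, 1, 0, 2] : W).sublists, v ≠ [] → v <:+: ([0, 1, 0, 2] : W) →
        ∃ i, pos v i ≠ 0 := by
      decide
    exact key v hv' h0 hv
  · intro v hv h0
    have key : ∀ v ∈ ([0, 1, 0, 2] : W).inits, v ≠ [] → 1 ≤ pos v 0 := by decide
    exact key v ((List.mem_inits _ _).2 hv) h0
  · intro v hv
    have key : ∀ v ∈ ([0, 1, 0, 2] : W).inits, pos v 0 ≤ 2 ∧ |X v| ≤ 1 := by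
      unfold X
      decide
    exact key v ((List.mem_inits _ _).2 hv)

end Pool.Agent.H122R3.HX
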