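import Pool.Agent.H122R3.HX.Fin
import Pool.Agent.H122R3.HX.Glue

/-!
Critical self-avoiding walks on the honeycomb lattice: gluing and tubes.
-/

set_option autoImplicit false

namespace Pool.Agent.H122R3.HX

open scoped ENNReal

theorem nbr_symm (p q : ℤ × ℤ) (h : Nbr p q) : Nbr q p := by
  unfold Nbr at *
  rcases h with ⟨h1, h2⟩ | ⟨h1, h2⟩
  · left; exact ⟨h1.symm, h2.symm⟩
  · right; exact ⟨h1.symm, h2.symm⟩

/-- the critical fugacity -/
noncomputable def xe : ℝ≥0∞ := ENNReal.ofReal (1 / Real.sqrt (2 + Real.sqrt 2))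

theorem ofFn_mem {D : Set (ℤ × ℤ)} {a b : ℤ × ℤ} {n : ℕ} {γ : Fin (n + 1) → ℤ × ℤ}
    (h : γ ∈ traj D a b n) : List.ofFn γ ∈ TL Nbr D a b := by
  obtain ⟨h1, h2, h3, h4, h5⟩ := h
  refine ⟨?_, ?_, ?_, ?_, ?_⟩
  · rw [List.head?_eq_getElem?, List.getElem?_ofFn, dif_pos (by omega), ← h1]
    rfl
  · rw [List.getLast?_eq_getElem?, List.getElem?_ofFn, List.length_ofFn, dif_pos (by omega), ← h2]
    rfl
  · rw [List.nodup_ofFn]; exact h3
  · rw [List.isChain_ofFn]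
    intro i hi
    have := h4 ⟨i, by omega⟩
    exact this
  · intro p hp
    rw [List.mem_ofFn] at hp
    obtain ⟨i, rfl⟩ := hp
    exact h5 i

theorem ZL_ge (x : ℝ≥0∞) (D : Set (ℤ × ℤ)) (a b : ℤ × ℤ) (n m : ℕ)
    (hm : m ≤ (traj D a b n).ncard) (hf : (traj D a b n).Finite) :
    (m : ℝ≥0∞) * x ^ n ≤ ZL Nbr x D a b := by
  have hinj : Function.Injective
      (fun γ : traj D a b n => (⟨List.ofFn γ.1, ofFn_mem γ.2⟩ : TL Nbr D a b)) := by
    intro γ γ' h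
    simp only [Subtype.mk.injEq] at h
    exact Subtype.ext (List.ofFn_injective h)
  have h1 := ENNReal.tsum_comp_le_tsum_of_injective hinj
    (fun l : TL Nbr D a b => x ^ (l.1.length - 1))
  have h2 : ∑' γ : traj D a b n, x ^ n ≤ ZL Nbr x D a b := by
    refine le_trans (le_of_eq ?_) h1
    congr 1
    funext γ
    simp
  rw [ENNReal.tsum_set_const] at h2
  refine le_trans ?_ h2
  refine mul_le_mul' ?_ le_rfl
  rw [← hf.cast_ncard_eq]
  simp only [ENat.toENNReal_coe, Nat.cast_le]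
  exact hm

theorem ZL_map (x : ℝ≥0∞) {φ : ℤ × ℤ → ℤ × ℤ} (hφ : Function.Injective φ)
    (hn : ∀ p q, Nbr p q → Nbr (φ p) (φ q)) {A D : Set (ℤ × ℤ)} (h : ∀ p ∈ A, φ p ∈ D)
    (a b : ℤ × ℤ) : ZL Nbr x A a b ≤ ZL Nbr x D (φ a) (φ b) := by
  have hmem : ∀ l ∈ TL Nbr A a b, l.map φ ∈ TL Nbr D (φ a) (φ b) := by
    rintro l ⟨h1, h2, h3, h4, h5⟩
    refine ⟨by rw [List.head?_map, h1]; rfl, by rw [List.getLast?_map, h2]; rfl, h3.map hφ,
      List.isChain_map_of_isChain φ hn h4, ?_⟩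
    intro p hp
    rw [List.mem_map] at hp
    obtain ⟨q, hq, rfl⟩ := hp
    exact h q (h5 q hq)
  have hinj : Function.Injective
      (fun l : TL Nbr A a b => (⟨l.1.map φ, hmem l.1 l.2⟩ : TL Nbr D (φ a) (φ b))) := by
    intro l l' h
    simp only [Subtype.mk.injEq] at h
    exact Subtype.ext (List.map_injective_iff.2 hφ h)
  have h1 := ENNReal.tsum_comp_le_tsum_of_injective hinj
    (fun l : TL Nbr D (φ a) (φ b) => x ^ (l.1.length - 1))
  refine le_trans (le_of_eq ?_) h1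
  unfold ZL
  congr 1
  funext l
  simp

/-- a symmetry of the lattice taking `p` to the origin -/
theorem exists_sym (p : ℤ × ℤ) : ∃ φ : ℤ × ℤ → ℤ × ℤ, Function.Injective φ ∧
    (∀ a b, Nbr a b → Nbr (φ a) (φ b)) ∧ φ p = (0, 0) := by
  rcases Int.even_or_odd (p.1 + p.2) with hp | hp
  · refine ⟨fun q => (q.1 - p.1, q.2 - p.2), ?_, ?_, by simp⟩
    · intro a b h
      simp only [Prod.mk.injEq] at h
      exact Prod.ext (by omega) (by omega)
    · intro a b h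
      unfold Nbr at *
      simp only [Int.even_iff] at *
      omega
  · refine ⟨fun q => (p.1 - q.1, p.2 - q.2), ?_, ?_, by simp⟩
    · intro a b h
      simp only [Prod.mk.injEq] at h
      exact Prod.ext (by omega) (by omega)
    · intro a b h
      unfold Nbr at *
      rw [Int.odd_iff] at hp
      simp only [Int.even_iff] at *
      omega

/-- paths with `n` steps from `p` -/
def Sn (p : ℤ × ℤ) (n : ℕ) : Set (List (ℤ × ℤ)) :=
  {r | r.head? = some p ∧ r.Nodup ∧ r.IsChain Nbr ∧ r.length = n + 1}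

theorem Sn_card (p : ℤ × ℤ) (n : ℕ) : (Sn p n).Finite ∧ (Sn p n).ncard ≤ c n := by
  obtain ⟨φ, hφ, hn, hp⟩ := exists_sym p
  have hmap : Set.MapsTo (fun (r : List (ℤ × ℤ)) (k : Fin (n + 1)) => φ (r.getD k (0, 0)))
      (Sn p n) (walks n) := by
    rintro r ⟨h1, h2, h3, h4⟩
    refine ⟨?_, ?_, ?_⟩
    · simp only [Fin.val_zero]
      rw [List.getD_eq_getElem?_getD, ← List.head?_eq_getElem?, h1]
      exact hp
    · intro i j hij
      have := hφ hij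
      rw [List.getD_eq_getElem _ _ (by omega), List.getD_eq_getElem _ _ (by omega)] at this
      exact Fin.ext ((h2.getElem_inj_iff).1 this)
    · intro i
      simp only [Fin.val_castSucc, Fin.val_succ]
      rw [List.getD_eq_getElem _ _ (by omega), List.getD_eq_getElem _ _ (by omega)]
      apply hn
      rw [List.isChain_iff_getElem] at h3
      exact h3 i (by omega)
  have hinj : Set.InjOn (fun (r : List (ℤ × ℤ)) (k : Fin (n + 1)) => φ (r.getD k (0, 0)))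
      (Sn p n) := by
    rintro r ⟨-, -, -, h4⟩ r' ⟨-, -, -, h4'⟩ h
    apply List.ext_getElem (by omega)
    intro i hi hi'
    have := hφ (congrFun h ⟨i, by omega⟩)
    simp only at this
    rwa [List.getD_eq_getElem _ _ hi, List.getD_eq_getElem _ _ hi'] at this
  refine ⟨Set.Finite.of_injOn hmap hinj (walks_finite n), ?_⟩
  rw [← ncard_walks]
  exact Set.ncard_le_ncard_of_injOn _ hmap hinj (walks_finite n)

theorem gw_sum_le (x : ℝ≥0∞) (N : ℕ) (p : ℤ × ℤ) :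
    ∑' r : List (ℤ × ℤ), gw Nbr x N (some p) r ≤ ∑ n ∈ Finset.range N, (c n : ℝ≥0∞) * x ^ n := by
  classical
  have h0 : ∀ r ∉ (Finset.range N).biUnion (fun n => (Sn_card p n).1.toFinset),
      gw Nbr x N (some p) r = 0 := by
    intro r hr
    unfold gw
    rw [if_neg]
    rintro ⟨h1, h2, h3, h4, h5⟩
    apply hr
    rw [Finset.mem_biUnion]
    have := List.length_pos_of_ne_nil h2
    refine ⟨r.length - 1, by rw [Finset.mem_range]; omega, ?_⟩
    rw [Set.Finite.mem_toFinset]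
    exact ⟨h1, h3, h4, by omega⟩
  rw [tsum_eq_sum h0, Finset.sum_biUnion]
  · refine Finset.sum_le_sum fun n _ => ?_
    calc ∑ r ∈ (Sn_card p n).1.toFinset, gw Nbr x N (some p) r
        ≤ ∑ r ∈ (Sn_card p n).1.toFinset, x ^ n := by
          refine Finset.sum_le_sum fun r hr => ?_
          rw [Set.Finite.mem_toFinset] at hr
          unfold gw
          split_ifs
          · rw [hr.2.2.2]; exact le_rfl
          · exact zero_le
      _ = ((Sn_card p n).1.toFinset.card : ℝ≥0∞) * x ^ n := by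
          rw [Finset.sum_const, nsmul_eq_mul]
      _ ≤ _ := by
          refine mul_le_mul' ?_ le_rfl
          rw [← Set.ncard_eq_toFinset_card _ (Sn_card p n).1]
          exact_mod_cast (Sn_card p n).2
  · intro n _ m _ hnm
    rw [Function.onFun, Finset.disjoint_left]
    intro r hr hr'
    rw [Set.Finite.mem_toFinset] at hr hr'
    have e1 := hr.2.2.2
    have e2 := hr'.2.2.2
    omega

theorem ZL_le_gw (x : ℝ≥0∞) {D : Set (ℤ × ℤ)} (a b : ℤ × ℤ) {N : ℕ}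
    (hN : ∀ l : List (ℤ × ℤ), l.Nodup → (∀ p ∈ l, p ∈ D) → l.length ≤ N) :
    ZL Nbr x D a b ≤ ∑' r : List (ℤ × ℤ), gw Nbr x N (some a) r := by
  refine le_trans (le_of_eq ?_) (ENNReal.tsum_comp_le_tsum_of_injective
    (Subtype.val_injective (p := fun l => l ∈ TL Nbr D a b)) (gw Nbr x N (some a)))
  unfold ZL
  congr 1
  funext l
  obtain ⟨l, h1, h2, h3, h4, h5⟩ := l
  unfold gw
  rw [if_pos]
  refine ⟨h1, ?_, h3, h4, hN l h3 h5⟩
  rintro rfl
  simp at h1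

theorem nodup_len {D : Set (ℤ × ℤ)} (hD : D.Finite) {N : ℕ} (hN : D.ncard ≤ N)
    (l : List (ℤ × ℤ)) (hl : l.Nodup) (h : ∀ p ∈ l, p ∈ D) : l.length ≤ N := by
  classical
  rw [← List.toFinset_card_of_nodup hl, ← Set.ncard_coe_finset]
  refine (Set.ncard_le_ncard ?_ hD).trans hN
  intro p hp
  rw [Finset.mem_coe, List.mem_toFinset] at hp
  exact h p hp

/-- all the bounds in a bounded set -/
theorem bounds_in_box (M : ℝ) : ∃ K4 : ℝ, 0 ≤ K4 ∧ ∀ L : ℕ, 2 ≤ L → ∀ D : Set (ℤ × ℤ),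
    (∀ p ∈ D, |(p.1 : ℝ)| ≤ M * L ∧ |(p.2 : ℝ)| ≤ M * L) →
    ∃ N : ℕ, (∀ l : List (ℤ × ℤ), l.Nodup → (∀ p ∈ l, p ∈ D) → l.length ≤ N) ∧
      (N : ℝ≥0∞) ≤ ENNReal.ofReal (Real.exp (K4 * Real.log L ^ 5)) ∧
      ∀ p : ℤ × ℤ, ∑' r : List (ℤ × ℤ), gw Nbr xe N (some p) r ≤
        ENNReal.ofReal (Real.exp (K4 * Real.log L ^ 5)) := by
  obtain ⟨K, hB⟩ := exists_Bd
  have hμ0 : 0 < Real.sqrt (2 + Real.sqrt 2) := by linarith [hB.one]
  have hlog2 : 0 < Real.log 2 := Real.log_pos (by norm_num)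
  obtain ⟨A, hA⟩ : ∃ A, A = (2 * |M| + 3) ^ 2 := ⟨_, rfl⟩
  have hA9 : 9 ≤ A := by
    rw [hA]
    nlinarith [abs_nonneg M]
  have hlA : 0 ≤ Real.log A := Real.log_nonneg (by linarith)
  obtain ⟨q, hq⟩ : ∃ q, q = Real.log A / Real.log 2 + 2 := ⟨_, rfl⟩
  have hq0 : 0 ≤ q := by rw [hq]; positivity
  have hKn := hB.Kn
  obtain ⟨K4, hK4⟩ : ∃ K4, K4 = Real.log 3 / Real.log 2 ^ 5 + q / Real.log 2 ^ 4 + K * q ^ 5 :=
    ⟨_, rfl⟩
  have hlog3 : 0 ≤ Real.log 3 := Real.log_nonneg (by norm_num)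
  have hK40 : 0 ≤ K4 := by rw [hK4]; positivity
  refine ⟨K4, hK40, ?_⟩
  intro L hL D hD2
  have hLr : (2 : ℝ) ≤ L := by exact_mod_cast hL
  obtain ⟨l, hl⟩ : ∃ l, l = Real.log (L : ℝ) := ⟨_, rfl⟩
  have hl2 : Real.log 2 ≤ l := by rw [hl]; exact Real.log_le_log (by norm_num) hLr
  have hl0 : 0 < l := by linarith
  obtain ⟨hDf, hDc⟩ := box_bound hD2
  obtain ⟨N, hN⟩ : ∃ N, N = (2 * ⌊|M| * L⌋₊ + 1) ^ 2 + 2 := ⟨_, rfl⟩
  have h5 : (N : ℝ) ≤ A * L ^ 2 := by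
    have h6 : (⌊|M| * L⌋₊ : ℝ) ≤ |M| * L := Nat.floor_le (by positivity)
    have h7 : (0 : ℝ) ≤ (⌊|M| * L⌋₊ : ℝ) := Nat.cast_nonneg _
    rw [hN, hA]
    push_cast
    have h8 : (2 * (⌊|M| * L⌋₊ : ℝ) + 1) ^ 2 ≤ (2 * (|M| * L) + 1) ^ 2 := by
      apply pow_le_pow_left₀ (by positivity)
      linarith
    have h9 : 0 ≤ |M| := abs_nonneg M
    have h10 : (2 * (|M| * L) + 1) ≤ (2 * |M| + 1) * L := by nlinarith
    have h11 : (2 * (|M| * L) + 1) ^ 2 ≤ ((2 * |M| + 1) * L) ^ 2 :=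
      pow_le_pow_left₀ (by positivity) h10 2
    have h12 : (2 : ℝ) ≤ L ^ 2 := by nlinarith
    nlinarith [mul_nonneg h9 (sq_nonneg (L : ℝ))]
  have hNr : (1 : ℝ) ≤ N := by exact_mod_cast (by omega : 1 ≤ N)
  have h13 : Real.log N ≤ q * l := by
    calc Real.log N ≤ Real.log (A * L ^ 2) := Real.log_le_log (by linarith) h5
      _ = Real.log A + 2 * l := by
          rw [Real.log_mul (by positivity) (by positivity), Real.log_pow, ← hl]
          push_cast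
          ring
      _ ≤ Real.log A / Real.log 2 * l + 2 * l := by
          have : Real.log A ≤ Real.log A / Real.log 2 * l := by
            rw [div_mul_eq_mul_div, le_div_iff₀ hlog2]
            gcongr
          linarith
      _ = _ := by rw [hq]; ring
  have h14 : 0 ≤ Real.log N := Real.log_nonneg hNr
  have h15 : Real.log N ^ 5 ≤ q ^ 5 * l ^ 5 := by
    rw [← mul_pow]
    exact pow_le_pow_left₀ h14 h13 5
  have hl5 : Real.log 2 ^ 5 ≤ l ^ 5 := pow_le_pow_left₀ hlog2.le hl2 5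
  have hl4 : Real.log 2 ^ 4 ≤ l ^ 4 := pow_le_pow_left₀ hlog2.le hl2 4
  have hfin : 3 * (N : ℝ) * Real.exp (K * Real.log N ^ 5) ≤ Real.exp (K4 * l ^ 5) := by
    calc 3 * (N : ℝ) * Real.exp (K * Real.log N ^ 5) =
          Real.exp (Real.log 3 + Real.log N + K * Real.log N ^ 5) := by
          rw [Real.exp_add, Real.exp_add, Real.exp_log (by norm_num), Real.exp_log (by linarith)]
      _ ≤ _ := by
          apply Real.exp_le_exp.2
          have a1 : Real.log 3 ≤ Real.log 3 / Real.log 2 ^ 5 * l ^ 5 := by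
            rw [div_mul_eq_mul_div, le_div_iff₀ (by positivity)]
            gcongr
          have a2 : q * l ≤ q / Real.log 2 ^ 4 * l ^ 5 := by
            rw [div_mul_eq_mul_div, le_div_iff₀ (by positivity)]
            calc q * l * Real.log 2 ^ 4 ≤ q * l * l ^ 4 := by gcongr
              _ = _ := by ring
          have a3 : K * Real.log N ^ 5 ≤ K * (q ^ 5 * l ^ 5) := by gcongr
          rw [hK4]
          nlinarith
  have hE1 : 1 ≤ Real.exp (K * Real.log N ^ 5) := Real.one_le_exp (by positivity)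
  rw [← hl]
  refine ⟨N, nodup_len hDf (by omega), ?_, ?_⟩
  · rw [← ENNReal.ofReal_natCast]
    apply ENNReal.ofReal_le_ofReal
    refine le_trans ?_ hfin
    nlinarith
  · intro p
    refine (gw_sum_le xe N p).trans ?_
    calc ∑ n ∈ Finset.range N, (c n : ℝ≥0∞) * xe ^ n
        ≤ ∑ n ∈ Finset.range N, ENNReal.ofReal (3 * Real.exp (K * Real.log N ^ 5)) := by
          refine Finset.sum_le_sum fun n hn => ?_
          rw [Finset.mem_range] at hn
          unfold xe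
          rw [← ENNReal.ofReal_natCast, ← ENNReal.ofReal_pow (by positivity),
            ← ENNReal.ofReal_mul (by positivity)]
          apply ENNReal.ofReal_le_ofReal
          have e1 := hB.c_le3 (a := n) (n := N) hn.le (by omega)
          rw [div_pow, one_pow, mul_one_div, div_le_iff₀ (pow_pos hμ0 n)]
          linarith
      _ = ENNReal.ofReal (3 * N * Real.exp (K * Real.log N ^ 5)) := by
          rw [Finset.sum_const, Finset.card_range, nsmul_eq_mul, ← ENNReal.ofReal_natCast,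
            ← ENNReal.ofReal_mul (by positivity)]
          congr 1
          ring
      _ ≤ _ := ENNReal.ofReal_le_ofReal hfin

/-- the lower bound for rectangles of any height -/
theorem rect_lower {ε : ℝ} (hε : 0 < ε) : ∃ K3 : ℝ, 0 ≤ K3 ∧
    ∀ L : ℕ, 2 ≤ L → 1 ≤ ε * L → ∀ ℓ : ℕ, ℓ ≤ L →
      ENNReal.ofReal (Real.exp (-(K3 * Real.log L ^ 5))) ≤
        ZL Nbr xe (rect (ε * L) (2 * ℓ)) (0, 0) (0, 2 * ℓ) := by
  obtain ⟨K, hB⟩ := exists_Bd
  have hμ0 : 0 < Real.sqrt (2 + Real.sqrt 2) := by linarith [hB.one]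
  obtain ⟨K3, hK3, h3⟩ := main_lower hB hε
  have hlog2 : 0 < Real.log 2 := Real.log_pos (by norm_num)
  obtain ⟨μ, hμ⟩ : ∃ μ, μ = Real.sqrt (2 + Real.sqrt 2) := ⟨_, rfl⟩
  have hlμ : 0 ≤ Real.log μ := by rw [hμ]; exact Real.log_nonneg hB.one
  obtain ⟨B, hBB⟩ : ∃ B : ℕ, B = ⌈1 / ε⌉₊ + 2 := ⟨_, rfl⟩
  refine ⟨K3 + 4 * B * Real.log μ / Real.log 2 ^ 5, by positivity, ?_⟩
  intro L hL hεL ℓ hℓ
  have hLr : (2 : ℝ) ≤ L := by exact_mod_cast hL
  obtain ⟨l, hl⟩ : ∃ l, l = Real.log (L : ℝ) := ⟨_, rfl⟩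
  have hl2 : Real.log 2 ≤ l := by rw [hl]; exact Real.log_le_log (by norm_num) hLr
  have hl0 : 0 < l := by linarith
  have hl5 : Real.log 2 ^ 5 ≤ l ^ 5 := pow_le_pow_left₀ hlog2.le hl2 5
  rw [← hl]
  have key : ∃ n : ℕ, Real.exp (-((K3 + 4 * B * Real.log μ / Real.log 2 ^ 5) * l ^ 5)) ≤
      (g (2 * ℓ) 0 ⌊ε * L⌋ n : ℝ) / μ ^ n := by
    by_cases hc : 2 ≤ ℓ ∧ 1 ≤ ε * ℓ
    · obtain ⟨n, hn⟩ := h3 ℓ hc.1 hc.2
      refine ⟨n, ?_⟩
      rw [← hμ] at hn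
      have hℓr : (ℓ : ℝ) ≤ L := by exact_mod_cast hℓ
      have hℓ2 : (2 : ℝ) ≤ ℓ := by exact_mod_cast hc.1
      have e1 : Real.log ℓ ≤ l := by rw [hl]; exact Real.log_le_log (by linarith) hℓr
      have e0 : 0 ≤ Real.log ℓ := Real.log_natCast_nonneg ℓ
      have e2 : Real.log ℓ ^ 5 ≤ l ^ 5 := pow_le_pow_left₀ e0 e1 5
      have e3 : (⌊ε * ℓ⌋ : ℤ) ≤ ⌊ε * L⌋ := Int.floor_le_floor (by gcongr)
      have e4 : (g (2 * ℓ) 0 ⌊ε * ℓ⌋ n : ℝ) ≤ (g (2 * ℓ) 0 ⌊ε * L⌋ n : ℝ) := by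
        exact_mod_cast g_mono n e3
      calc Real.exp (-((K3 + 4 * B * Real.log μ / Real.log 2 ^ 5) * l ^ 5))
          ≤ Real.exp (-(K3 * Real.log ℓ ^ 5)) := by
            apply Real.exp_le_exp.2
            have a1 : K3 * Real.log ℓ ^ 5 ≤ K3 * l ^ 5 := by gcongr
            have a2 : 0 ≤ 4 * B * Real.log μ / Real.log 2 ^ 5 * l ^ 5 := by positivity
            linarith
        _ ≤ _ := hn
        _ ≤ _ := by
            apply div_le_div_of_nonneg_right e4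
            rw [hμ]; positivity
    · refine ⟨4 * ℓ, ?_⟩
      have hℓB : ℓ ≤ B := by
        rw [not_and_or, not_le, not_le] at hc
        rcases hc with hc | hc
        · omega
        · have : (ℓ : ℝ) ≤ ⌈1 / ε⌉₊ := by
            refine le_trans ?_ (Nat.le_ceil _)
            rw [le_div_iff₀ hε]
            linarith
          have : ℓ ≤ ⌈1 / ε⌉₊ := by exact_mod_cast this
          omega
      have hT1 : (1 : ℤ) ≤ ⌊ε * L⌋ := by
        rw [Int.le_floor]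
        exact_mod_cast hεL
      have e1 := one_le_g ℓ hT1
      have e2 : (1 : ℝ) / μ ^ (4 * ℓ) = Real.exp (-((4 * ℓ : ℕ) * Real.log μ)) := by
        rw [Real.exp_neg, Real.exp_nat_mul, Real.exp_log (by rw [hμ]; exact hμ0), one_div]
      calc Real.exp (-((K3 + 4 * B * Real.log μ / Real.log 2 ^ 5) * l ^ 5))
          ≤ Real.exp (-((4 * ℓ : ℕ) * Real.log μ)) := by
            apply Real.exp_le_exp.2
            have a0 : ((4 * ℓ : ℕ) : ℝ) ≤ 4 * B := by exact_mod_cast (by omega : 4 * ℓ ≤ 4 * B)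
            have a1 : ((4 * ℓ : ℕ) : ℝ) * Real.log μ ≤ 4 * B * Real.log μ := by gcongr
            have a2 : 4 * B * Real.log μ ≤ 4 * B * Real.log μ / Real.log 2 ^ 5 * l ^ 5 := by
              rw [div_mul_eq_mul_div, le_div_iff₀ (by positivity)]
              gcongr
            have a3 : 0 ≤ K3 * l ^ 5 := by positivity
            linarith
        _ = 1 / μ ^ (4 * ℓ) := e2.symm
        _ ≤ _ := by
            apply div_le_div_of_nonneg_right
            · exact_mod_cast e1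
            · rw [hμ]; positivity
  obtain ⟨n, hn⟩ := key
  have h4 := g_le_traj (t := ε * L) (H := 2 * ℓ) (subset_refl _) n
  have h5 := ZL_ge xe (rect (ε * L) (2 * ℓ)) (0, 0) (0, 2 * ℓ) n _ h4
    ((walks_finite n).subset (traj_subset _ _ n))
  refine le_trans ?_ h5
  unfold xe
  rw [← ENNReal.ofReal_natCast, ← ENNReal.ofReal_pow (by positivity),
    ← ENNReal.ofReal_mul (by positivity)]
  apply ENNReal.ofReal_le_ofReal
  refine hn.trans (le_of_eq ?_)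
  rw [hμ, div_pow, one_pow]
  ring

/-- `p` and `q` are the midpoints of two opposite sides of a rectangle of width `2 t` and
height `2 ℓ`, `ℓ ≤ L`, contained in `T` (in any of the positions obtained by symmetries of the
lattice) -/
def Seg (T : Set (ℤ × ℤ)) (t : ℝ) (L : ℕ) (p q : ℤ × ℤ) : Prop :=
  ∃ (φ : ℤ × ℤ → ℤ × ℤ) (ℓ : ℕ), Function.Bijective φ ∧ (∀ a b, Nbr (φ a) (φ b) ↔ Nbr a b) ∧
    ℓ ≤ L ∧ φ (0, 0) = p ∧ φ (0, 2 * ℓ) = q ∧ ∀ z ∈ rect t (2 * ℓ), φ z ∈ T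

theorem ofReal_exp_pow (x : ℝ) (k : ℕ) :
    ENNReal.ofReal (Real.exp x) ^ k = ENNReal.ofReal (Real.exp (k * x)) := by
  rw [← ENNReal.ofReal_pow (Real.exp_pos _).le, Real.exp_nat_mul]

/-- **Gluing.** -/
theorem gluing (M : ℝ) : ∃ K : ℝ, ∀ L : ℕ, 2 ≤ L → ∀ D : Set (ℤ × ℤ),
    (∀ p ∈ D, |(p.1 : ℝ)| ≤ M * L ∧ |(p.2 : ℝ)| ≤ M * L) → ∀ a v b : ℤ × ℤ,
      ZL Nbr xe D a v * ZL Nbr xe D v b ≤
        ENNReal.ofReal (Real.exp (K * Real.log L ^ 5)) * ZL Nbr xe D a b := by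
  obtain ⟨K4, hK4, h4⟩ := bounds_in_box M
  refine ⟨3 * K4, fun L hL D hD a v b => ?_⟩
  obtain ⟨N, hN1, hN2, hN3⟩ := h4 L hL D hD
  have h := glue (A := D) (B := D) (a := a) (v := v) (b := b) nbr_symm
    (by rw [Set.union_self]; exact hN1) xe _ hN3
  rw [Set.union_self] at h
  refine h.trans (mul_le_mul' ?_ le_rfl)
  calc (N : ℝ≥0∞) * ENNReal.ofReal (Real.exp (K4 * Real.log L ^ 5)) ^ 2
      ≤ ENNReal.ofReal (Real.exp (K4 * Real.log L ^ 5)) *
        ENNReal.ofReal (Real.exp (K4 * Real.log L ^ 5)) ^ 2 := mul_le_mul' hN2 le_rfl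
    _ = ENNReal.ofReal (Real.exp (K4 * Real.log L ^ 5)) ^ 3 := by ring
    _ = _ := by
        rw [ofReal_exp_pow]
        congr 2
        push_cast
        ring

/-- **Tubes.** -/
theorem tube (ε M : ℝ) (hε : 0 < ε) (k : ℕ) : ∃ K : ℝ, 0 ≤ K ∧ ∀ L : ℕ, 2 ≤ L → 1 ≤ ε * L →
    ∀ D : Set (ℤ × ℤ), (∀ p ∈ D, |(p.1 : ℝ)| ≤ M * L ∧ |(p.2 : ℝ)| ≤ M * L) →
      ∀ p : ℕ → ℤ × ℤ, (∀ i ≤ k, Seg D (ε * L) L (p i) (p (i + 1))) →
        ENNReal.ofReal (Real.exp (-(K * Real.log L ^ 5))) ≤ ZL Nbr xe D (p 0) (p (k + 1)) := by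
  obtain ⟨K3, hK3, h3⟩ := rect_lower hε
  obtain ⟨K4, hK4⟩ := gluing M
  have hseg : ∀ L : ℕ, 2 ≤ L → 1 ≤ ε * L → ∀ D : Set (ℤ × ℤ), ∀ p q,
      Seg D (ε * L) L p q →
      ENNReal.ofReal (Real.exp (-(K3 * Real.log L ^ 5))) ≤ ZL Nbr xe D p q := by
    rintro L hL hεL D p q ⟨φ, ℓ, hφ, hn, hℓ, rfl, rfl, hz⟩
    exact (h3 L hL hεL ℓ hℓ).trans
      (ZL_map xe hφ.1 (fun a b h => (hn a b).2 h) hz (0, 0) (0, 2 * ℓ))
  induction k with
  | zero =>
    refine ⟨K3, hK3, ?_⟩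
    intro L hL hεL D _ p hp
    exact hseg L hL hεL D _ _ (hp 0 le_rfl)
  | succ k ih =>
    obtain ⟨K, hK, ih⟩ := ih
    refine ⟨K + K3 + |K4|, by positivity, ?_⟩
    intro L hL hεL D hD p hp
    have h1 := ih L hL hεL D hD p (fun i hi => hp i (by omega))
    have h2 := hseg L hL hεL D _ _ (hp (k + 1) le_rfl)
    have h5 := hK4 L hL D hD (p 0) (p (k + 1)) (p (k + 1 + 1))
    have hl : 0 ≤ Real.log (L : ℝ) ^ 5 := pow_nonneg (Real.log_natCast_nonneg L) 5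
    have h6 : ENNReal.ofReal (Real.exp (-(K * Real.log L ^ 5))) *
        ENNReal.ofReal (Real.exp (-(K3 * Real.log L ^ 5))) ≤
        ENNReal.ofReal (Real.exp (|K4| * Real.log L ^ 5)) *
          ZL Nbr xe D (p 0) (p (k + 1 + 1)) := by
      refine (mul_le_mul' h1 h2).trans (h5.trans (mul_le_mul' ?_ le_rfl))
      apply ENNReal.ofReal_le_ofReal
      apply Real.exp_le_exp.2
      exact mul_le_mul_of_nonneg_right (le_abs_self K4) hl
    have h7 : ENNReal.ofReal (Real.exp (-((K + K3 + |K4|) * Real.log L ^ 5))) =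
        ENNReal.ofReal (Real.exp (-(|K4| * Real.log L ^ 5))) *
        (ENNReal.ofReal (Real.exp (-(K * Real.log L ^ 5))) *
        ENNReal.ofReal (Real.exp (-(K3 * Real.log L ^ 5)))) := by
      rw [← ENNReal.ofReal_mul (Real.exp_pos _).le, ← ENNReal.ofReal_mul (Real.exp_pos _).le,
        ← Real.exp_add, ← Real.exp_add]
      congr 2
      ring
    rw [h7]
    calc ENNReal.ofReal (Real.exp (-(|K4| * Real.log L ^ 5))) *
        (ENNReal.ofReal (Real.exp (-(K * Real.log L ^ 5))) *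
        ENNReal.ofReal (Real.exp (-(K3 * Real.log L ^ 5))))
        ≤ ENNReal.ofReal (Real.exp (-(|K4| * Real.log L ^ 5))) *
        (ENNReal.ofReal (Real.exp (|K4| * Real.log L ^ 5)) *
          ZL Nbr xe D (p 0) (p (k + 1 + 1))) := mul_le_mul' le_rfl h6
      _ = ZL Nbr xe D (p 0) (p (k + 1 + 1)) := by
          rw [← mul_assoc, ← ENNReal.ofReal_mul (Real.exp_pos _).le, ← Real.exp_add,
            neg_add_cancel, Real.exp_zero, ENNReal.ofReal_one, one_mul]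

/-- **Upper bound.** -/
theorem upper (M : ℝ) : ∃ K : ℝ, 0 ≤ K ∧ ∀ L : ℕ, 2 ≤ L → ∀ D : Set (ℤ × ℤ),
    (∀ p ∈ D, |(p.1 : ℝ)| ≤ M * L ∧ |(p.2 : ℝ)| ≤ M * L) → ∀ a b : ℤ × ℤ,
      ZL Nbr xe D a b ≤ ENNReal.ofReal (Real.exp (K * Real.log L ^ 5)) := by
  obtain ⟨K4, hK4, h4⟩ := bounds_in_box M
  refine ⟨K4, hK4, fun L hL D hD a b => ?_⟩
  obtain ⟨N, hN1, hN2, hN3⟩ := h4 L hL D hD
  exact (ZL_le_gw xe a b hN1).trans (hN3 a)

/-- **Main theorem.** -/
theorem final2 (ε M : ℝ) (hε : 0 < ε) (k : ℕ) : ∃ K : ℝ, ∀ L : ℕ, 2 ≤ L → 1 ≤ ε * L →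
    ∀ T D : Set (ℤ × ℤ), T ⊆ D → (∀ p ∈ D, |(p.1 : ℝ)| ≤ M * L ∧ |(p.2 : ℝ)| ≤ M * L) →
      ∀ p : ℕ → ℤ × ℤ, (∀ i ≤ k, Seg T (ε * L) L (p i) (p (i + 1))) →
        ENNReal.ofReal (Real.exp (-(K * Real.log L ^ 5))) ≤ ZL Nbr xe D (p 0) (p (k + 1)) ∧
        ZL Nbr xe D (p 0) (p (k + 1)) ≤ ENNReal.ofReal (Real.exp (K * Real.log L ^ 5)) ∧
        ENNReal.ofReal (Real.exp (-(K * Real.log L ^ 5))) ≤
          ZL Nbr xe (D ∩ T) (p 0) (p (k + 1)) / ZL Nbr xe D (p 0) (p (k + 1)) := by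
  obtain ⟨K1, hK1, h1⟩ := tube ε M hε k
  obtain ⟨K2, hK2, h2⟩ := upper M
  refine ⟨K1 + K2, ?_⟩
  intro L hL hεL T D hTD hD p hp
  have hl : 0 ≤ Real.log (L : ℝ) ^ 5 := pow_nonneg (Real.log_natCast_nonneg L) 5
  have hp' : ∀ i ≤ k, Seg D (ε * L) L (p i) (p (i + 1)) := by
    intro i hi
    obtain ⟨φ, ℓ, a1, a2, a3, a4, a5, a6⟩ := hp i hi
    exact ⟨φ, ℓ, a1, a2, a3, a4, a5, fun z hz => hTD (a6 z hz)⟩
  have e1 := h1 L hL hεL D hD p hp'
  have e2 := h2 L hL D hD (p 0) (p (k + 1))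
  have e3 := h1 L hL hεL T (fun z hz => hD z (hTD hz)) p hp
  refine ⟨le_trans (ENNReal.ofReal_le_ofReal (Real.exp_le_exp.2 ?_)) e1,
    e2.trans (ENNReal.ofReal_le_ofReal (Real.exp_le_exp.2 ?_)), ?_⟩
  · nlinarith [mul_nonneg hK2 hl]
  · nlinarith [mul_nonneg hK1 hl]
  · rw [Set.inter_eq_right.2 hTD]
    rw [ENNReal.le_div_iff_mul_le]
    · calc ENNReal.ofReal (Real.exp (-((K1 + K2) * Real.log L ^ 5))) *
            ZL Nbr xe D (p 0) (p (k + 1))
          ≤ ENNReal.ofReal (Real.exp (-((K1 + K2) * Real.log L ^ 5))) *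
            ENNReal.ofReal (Real.exp (K2 * Real.log L ^ 5)) := mul_le_mul' le_rfl e2
        _ = ENNReal.ofReal (Real.exp (-(K1 * Real.log L ^ 5))) := by
            rw [← ENNReal.ofReal_mul (Real.exp_pos _).le, ← Real.exp_add]
            congr 2
            ring
        _ ≤ _ := e3
    · left
      intro h
      rw [h] at e1
      have := ENNReal.ofReal_pos.2 (Real.exp_pos (-(K1 * Real.log L ^ 5)))
      exact absurd (lt_of_lt_of_le this e1) (lt_irrefl _)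
    · left
      exact ne_top_of_le_ne_top ENNReal.ofReal_ne_top e2

end Pool.Agent.H122R3.HX
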