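import Mathlib

/-!
Self-avoiding walks on the honeycomb lattice as words over three letters. The letter `i` at an even
time is a step `+e_i`, at an odd time a step `-e_i`; the vertices are the integer triples with
coordinate sum `0` or `1`.
-/

set_option autoImplicit false

namespace Pool.Agent.H122R3.HX

abbrev W := List (Fin 3)

/-- displacement of a word -/
def pos : W → Fin 3 → ℤ
  | [], _ => 0
  | l :: w, i => (if i = l then 1 else 0) - pos w i

@[simp] theorem pos_nil (i : Fin 3) : pos [] i = 0 := rfl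
@[simp] theorem pos_cons (l : Fin 3) (w : W) (i : Fin 3) :
    pos (l :: w) i = (if i = l then 1 else 0) - pos w i := rfl

theorem pos_append (u v : W) (i : Fin 3) :
    pos (u ++ v) i = pos u i + (-1) ^ u.length * pos v i := by
  induction u with
  | nil => simp
  | cons l u ih =>
    rw [List.cons_append, pos_cons, ih, pos_cons, List.length_cons, pow_succ]
    ring

theorem sgn_cases (n : ℕ) : ((-1 : ℤ) ^ n = 1 ∧ n % 2 = 0) ∨ ((-1 : ℤ) ^ n = -1 ∧ n % 2 = 1) := by
  rcases Nat.even_or_odd n with h | h
  · left; exact ⟨h.neg_one_pow, Nat.even_iff.1 h⟩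
  · right; exact ⟨h.neg_one_pow, Nat.odd_iff.1 h⟩

theorem pos_sum (w : W) : pos w 0 + pos w 1 + pos w 2 = ((w.length % 2 : ℕ) : ℤ) := by
  induction w with
  | nil => simp
  | cons l w ih =>
    simp only [pos_cons, List.length_cons]
    have h : ((if (0 : Fin 3) = l then (1 : ℤ) else 0) + (if (1 : Fin 3) = l then (1 : ℤ) else 0) +
        (if (2 : Fin 3) = l then (1 : ℤ) else 0)) = 1 := by
      fin_cases l <;> simp
    omega

/-- self-avoiding words -/
def Saw (w : W) : Prop := ∀ v, v <:+: w → v ≠ [] → ∃ i, pos v i ≠ 0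

theorem Saw.inf {w v : W} (h : Saw w) (hv : v <:+: w) : Saw v :=
  fun x hx h0 => h x (hx.trans hv) h0

theorem pos_map (σ : Equiv.Perm (Fin 3)) (w : W) (i : Fin 3) :
    pos (w.map σ) (σ i) = pos w i := by
  induction w with
  | nil => rfl
  | cons l w ih =>
    rw [List.map_cons, pos_cons, pos_cons, ih]
    simp [σ.injective.eq_iff]

theorem pos_map' (σ : Equiv.Perm (Fin 3)) (w : W) (i : Fin 3) :
    pos (w.map σ) i = pos w (σ.symm i) := by
  have := pos_map σ w (σ.symm i)
  rwa [Equiv.apply_symm_apply] at this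

theorem map_symm_map (σ : Equiv.Perm (Fin 3)) (w : W) : (w.map σ).map σ.symm = w := by
  rw [List.map_map]
  convert List.map_id w
  ext i
  simp

theorem map_map_symm (σ : Equiv.Perm (Fin 3)) (w : W) : (w.map σ.symm).map σ = w := by
  rw [List.map_map]
  convert List.map_id w
  ext i
  simp

theorem inf_map {σ : Equiv.Perm (Fin 3)} {w v : W} (h : v <:+: w.map σ) :
    v.map σ.symm <:+: w := by
  have := h.map σ.symm
  rwa [map_symm_map] at this

theorem pre_map {σ : Equiv.Perm (Fin 3)} {w v : W} (h : v <+: w.map σ) :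
    v.map σ.symm <+: w := by
  have := h.map σ.symm
  rwa [map_symm_map] at this

theorem Saw.map {w : W} (h : Saw w) (σ : Equiv.Perm (Fin 3)) : Saw (w.map σ) := by
  intro v hv h0
  obtain ⟨i, hi⟩ := h _ (inf_map hv) (by simpa using h0)
  refine ⟨σ i, ?_⟩
  rw [pos_map'] at hi
  simpa using hi

/-- the word `u` connects two levels of the coordinate `i` at distance `S`, strictly between them
in the meantime, and all its extents are at most `S` -/
def UB (i : Fin 3) (S : ℤ) (u : W) : Prop :=
  Saw u ∧ (∀ v, v <:+: u → ∀ j, |pos v j| ≤ S) ∧ pos u i = S ∧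
    ∀ v, v <+: u → v ≠ [] → v ≠ u → 0 < pos v i ∧ pos v i < S

theorem UB.map {i : Fin 3} {S : ℤ} {u : W} (h : UB i S u) (σ : Equiv.Perm (Fin 3)) :
    UB (σ i) S (u.map σ) := by
  obtain ⟨h1, h2, h3, h4⟩ := h
  refine ⟨h1.map σ, ?_, ?_, ?_⟩
  · intro v hv j
    have := h2 _ (inf_map hv) (σ.symm j)
    rw [pos_map'] at this
    simpa using this
  · rw [pos_map]; exact h3
  · intro v hv h0 hne
    have := h4 _ (pre_map hv) (by simpa using h0) (by
      intro h
      apply hne
      rw [← h, map_map_symm])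
    rw [pos_map'] at this
    simpa using this

theorem Saw.take_ne {w : W} (h : Saw w) {i j : ℕ} (hij : i < j) (hj : j ≤ w.length) :
    ∃ a, pos (w.take i) a ≠ pos (w.take j) a := by
  have h1 : (w.take j).take i ++ (w.take j).drop i = w.take j := List.take_append_drop _ _
  rw [List.take_take, min_eq_left hij.le] at h1
  have h2 : (w.take j).drop i <:+: w :=
    (List.drop_suffix _ _).isInfix.trans (List.take_prefix _ _).isInfix
  have h3 : (w.take j).drop i ≠ [] := by
    intro h
    have := congrArg List.length h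
    simp only [List.length_drop, List.length_take, List.length_nil] at this
    omega
  obtain ⟨a, ha⟩ := h _ h2 h3
  refine ⟨a, ?_⟩
  rw [← h1, pos_append]
  intro h4
  have h5 : (-1 : ℤ) ^ (w.take i).length * pos ((w.take j).drop i) a = 0 := by omega
  rcases mul_eq_zero.1 h5 with h6 | h6
  · exact pow_ne_zero _ (by norm_num) h6
  · exact ha h6

/-- a long self-avoiding word has a large extent -/
theorem exists_big {S : ℕ} (hS : 1 ≤ S) {w : W} (hw : Saw w) (hlen : 8 * S ^ 2 ≤ w.length) :
    ∃ v i, v <:+: w ∧ (S : ℤ) ≤ |pos v i| := by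
  by_contra hcon
  push Not at hcon
  have hcard : (Finset.range (w.length + 1)).card ≤
      (Finset.Ioo (-(S : ℤ)) S ×ˢ (Finset.Ioo (-(S : ℤ)) S ×ˢ Finset.range 2)).card := by
    apply Finset.card_le_card_of_injOn
      (fun k => (pos (w.take k) 0, (pos (w.take k) 1, k % 2)))
    · intro k hk
      have h0 := hcon (w.take k) 0 (List.take_prefix _ _).isInfix
      have h1 := hcon (w.take k) 1 (List.take_prefix _ _).isInfix
      rw [abs_lt] at h0 h1
      simp only [Finset.coe_product, Set.mem_prod, Finset.coe_Ioo, Set.mem_Ioo, Finset.coe_range,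
        Set.mem_Iio]
      exact ⟨h0, h1, Nat.mod_lt _ (by norm_num)⟩
    · intro a ha b hb hab
      simp only [Finset.coe_range, Set.mem_Iio] at ha hb
      simp only [Prod.mk.injEq] at hab
      obtain ⟨e0, e1, e2⟩ := hab
      have s1 := pos_sum (w.take a)
      have s2 := pos_sum (w.take b)
      rw [List.length_take, min_eq_left (by omega)] at s1 s2
      by_contra hne
      rcases Nat.lt_or_gt_of_ne hne with h | h
      · obtain ⟨i, hi⟩ := hw.take_ne h (by omega)
        apply hi
        fin_cases i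
        · exact e0
        · exact e1
        · simp only [Fin.reduceFinMk]
          omega
      · obtain ⟨i, hi⟩ := hw.take_ne h (by omega)
        apply hi
        fin_cases i
        · exact e0.symm
        · exact e1.symm
        · simp only [Fin.reduceFinMk]
          omega
  rw [Finset.card_range, Finset.card_product, Finset.card_product, Int.card_Ioo,
    Finset.card_range] at hcard
  have e : ((S : ℤ) - -(S : ℤ) - 1).toNat = 2 * S - 1 := by omega
  rw [e] at hcard
  obtain ⟨s, rfl⟩ : ∃ s, S = s + 1 := ⟨S - 1, by omega⟩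
  have e2 : 2 * (s + 1) - 1 = 2 * s + 1 := by omega
  rw [e2] at hcard
  nlinarith

/-- every long self-avoiding word contains a crossing word -/
theorem exists_UB {S : ℕ} (hS : 1 ≤ S) {w : W} (hw : Saw w) (hlen : 8 * S ^ 2 ≤ w.length) :
    ∃ u1 u2 u3 i, w = u1 ++ u2 ++ u3 ∧ UB i S u2 := by
  classical
  have hP : ∃ t, ∃ v i, v <:+: w.take t ∧ (S : ℤ) ≤ |pos v i| := by
    obtain ⟨v, i, h1, h2⟩ := exists_big hS hw hlen
    exact ⟨w.length, v, i, by rwa [List.take_length], h2⟩
  obtain ⟨v0, i, hv0, hv0S⟩ := Nat.find_spec hP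
  have hmin : ∀ t, t < Nat.find hP → ∀ v j, v <:+: w.take t → |pos v j| < S := by
    intro t ht v j hv
    by_contra h
    exact Nat.find_min hP ht ⟨v, j, hv, not_lt.1 h⟩
  obtain ⟨t, ht⟩ : ∃ t, t = Nat.find hP := ⟨_, rfl⟩
  rw [← ht] at hv0 hmin
  have ht0 : t ≠ 0 := by
    intro h
    rw [h, List.take_zero, List.infix_nil] at hv0
    rw [hv0, pos_nil, abs_zero] at hv0S
    omega
  obtain ⟨t', rfl⟩ : ∃ t', t = t' + 1 := ⟨t - 1, by omega⟩
  have htl : t' < w.length := by
    by_contra h
    apply absurd hv0S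
    rw [not_le]
    apply hmin t' (by omega)
    rwa [List.take_of_length_le (by omega)] at hv0 ⊢
  have htk : w.take (t' + 1) = w.take t' ++ [w[t']] := by
    rw [List.take_add_one, List.getElem?_eq_getElem htl]; rfl
  have hsuf : ∀ v j, v <:+: w.take (t' + 1) → (S : ℤ) ≤ |pos v j| → v <:+ w.take (t' + 1) := by
    intro v j hv hS'
    rw [htk, List.infix_concat_iff] at hv
    rcases hv with hv | hv
    · rw [htk]; exact hv
    · have := hmin t' (by omega) v j hv
      omega
  have hle : ∀ v j, v <:+: w.take (t' + 1) → |pos v j| ≤ S := by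
    intro v j hv
    by_contra hcon
    rw [not_le] at hcon
    have h1 := hsuf v j hv hcon.le
    rw [htk, List.suffix_concat_iff] at h1
    rcases h1 with h1 | ⟨y, h1, h2⟩
    · rw [h1, pos_nil, abs_zero] at hcon
      omega
    · have h3 := hmin t' (by omega) y j h2.isInfix
      rw [h1, pos_append, pos_cons, pos_nil] at hcon
      rw [abs_lt] at h3
      rw [lt_abs] at hcon
      rcases sgn_cases y.length with ⟨hs, -⟩ | ⟨hs, -⟩ <;> rw [hs] at hcon <;>
        split_ifs at hcon <;> omega
  have hQ : ∃ k, ∃ v, v <:+ w.take (t' + 1) ∧ v.length = k ∧ (S : ℤ) ≤ |pos v i| :=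
    ⟨v0.length, v0, hsuf v0 i hv0 hv0S, rfl, hv0S⟩
  obtain ⟨v, hv, hvk, hvS⟩ := Nat.find_spec hQ
  have hmin2 : ∀ v', v' <:+ w.take (t' + 1) → v'.length < v.length → |pos v' i| < S := by
    intro v' h1 h2
    by_contra h
    rw [hvk] at h2
    exact Nat.find_min hQ h2 ⟨v', h1, rfl, not_lt.1 h⟩
  have hvinf : v <:+: w := hv.isInfix.trans (List.take_prefix _ _).isInfix
  have hv0' : v ≠ [] := by
    intro h
    rw [h, pos_nil, abs_zero] at hvS
    omega
  have hvi : pos v i = S := by
    obtain ⟨l, v', rfl⟩ := List.exists_cons_of_ne_nil hv0'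
    have h1 := hmin2 v' ((List.suffix_cons l v').trans hv) (by simp)
    have h2 := hle (l :: v') i hv.isInfix
    rw [pos_cons] at hvS h2 ⊢
    rw [abs_lt] at h1
    rw [abs_le] at h2
    rw [le_abs] at hvS
    split_ifs at hvS h2 ⊢ <;> omega
  obtain ⟨u1, hu1⟩ := hv
  refine ⟨u1, v, w.drop (t' + 1), i, ?_, ⟨hw.inf hvinf, ?_, hvi, ?_⟩⟩
  · rw [hu1, List.take_append_drop]
  · intro x hx j
    exact hle x j (hx.trans (List.IsSuffix.isInfix ⟨u1, hu1⟩))
  · intro x hx hx0 hxv
    obtain ⟨y, hy⟩ := hx
    have hy0 : y ≠ [] := by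
      rintro rfl
      rw [List.append_nil] at hy
      exact hxv hy
    have hlx : x.length < v.length := by
      rw [← hy, List.length_append]
      have := List.length_pos_of_ne_nil hy0
      omega
    have hly : y.length < v.length := by
      rw [← hy, List.length_append]
      have := List.length_pos_of_ne_nil hx0
      omega
    have hys : y <:+ v := ⟨x, hy⟩
    have h1 := hmin2 y (hys.trans ⟨u1, hu1⟩) hly
    have hxp : x <:+: w.take (t' + 1) :=
      (List.IsPrefix.isInfix ⟨y, hy⟩).trans (List.IsSuffix.isInfix ⟨u1, hu1⟩)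
    have h2 : |pos x i| < S := by
      by_contra hc
      rw [not_lt] at hc
      have := hmin2 x (hsuf x i hxp hc) hlx
      omega
    have h3 : pos v i = pos x i + (-1) ^ x.length * pos y i := by rw [← hy, pos_append]
    rw [abs_lt] at h1 h2
    rcases sgn_cases x.length with ⟨hs, -⟩ | ⟨hs, -⟩ <;> rw [hs] at h3 <;>
      exact ⟨by omega, by omega⟩

end Pool.Agent.H122R3.HX
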